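import Mathlib

/-!
# All solutions of `V_1(n) = 1` (Erdős, Selfridge): definitions, basic lemmas and statements of the modules
-/

set_option autoImplicit false

namespace Pool.Agent.Helper93.VL

/-- `V n k` is the number of the primes `p ∣ n + k` such that the exact power of `p` in `n + k` divides
none of `n, n + 1, ..., n + k - 1`. -/
noncomputable def V (n k : ℕ) : ℕ :=
  by classical exact ((n + k).primeFactors.filter
    (fun p => ∀ j, j < k → ¬ p ^ ((n + k).factorization p) ∣ n + j)).card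

/-! ### The structure of the solutions -/

lemma two_comp {n k p q : ℕ} (hn : 1 ≤ n) (h : V n k ≤ 1) (hp : p.Prime) (hq : q.Prime)
    (hpd : p ∣ n + k) (hqd : q ∣ n + k) (hpk : k < p ^ (n + k).factorization p)
    (hqk : k < q ^ (n + k).factorization q) : p = q := by
  classical
  have key : ∀ r : ℕ, r.Prime → r ∣ n + k → k < r ^ (n + k).factorization r →
     r ∈ ((n + k).primeFactors.filter
      (fun p => ∀ j, j < k → ¬ p ^ ((n + k).factorization p) ∣ n + j)) := by
    intro r hr hrd hrk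
    rw [Finset.mem_filter]
    refine ⟨Nat.mem_primeFactors.2 ⟨hr, hrd, by omega⟩, fun j hj hdvd => ?_⟩
    have h1 : r ^ ((n + k).factorization r) ∣ n + k := Nat.ordProj_dvd _ _
    have h2 : r ^ ((n + k).factorization r) ∣ (n + k) - (n + j) := Nat.dvd_sub h1 hdvd
    have h3 : (n + k) - (n + j) = k - j := by omega
    rw [h3] at h2
    have := Nat.le_of_dvd (by omega) h2
    omega
  unfold V at h
  exact Finset.card_le_one.1 h _ (key p hp hpd hpk) _ (key q hq hqd hqk)

lemma shape {n : ℕ} (hn : 1 ≤ n) (H : ∀ k, 1 ≤ k → V n k ≤ 1) :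
    ∃ p j i c : ℕ, p.Prime ∧ 1 ≤ j ∧ 1 ≤ i ∧ i < p ^ j ∧ n + i = i * p ^ c ∧
      ∀ Q, IsPrimePow Q → Q < p ^ j → Q ∣ n := by
  classical
  have hex : ∃ Q, IsPrimePow Q ∧ ¬ Q ∣ n :=
    ⟨2 ^ n, (Nat.prime_two.isPrimePow).pow (by omega), fun h => by
      have h1 := Nat.le_of_dvd hn h
      have h2 := Nat.lt_two_pow_self (n := n)
      omega⟩
  obtain ⟨hP1, hP2⟩ := Nat.find_spec hex
  have hmin : ∀ Q, IsPrimePow Q → Q < Nat.find hex → Q ∣ n := by
    intro Q hQ hlt
    by_contra hc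
    exact Nat.find_min hex hlt ⟨hQ, hc⟩
  generalize Nat.find hex = P at hP1 hP2 hmin
  obtain ⟨p, j, hp, hj, rfl⟩ := (isPrimePow_nat_iff _).1 hP1
  have hPpos : 0 < p ^ j := pow_pos hp.pos j
  have hmod : n % p ^ j ≠ 0 := fun h => hP2 (Nat.dvd_of_mod_eq_zero h)
  have hmodlt : n % p ^ j < p ^ j := Nat.mod_lt _ hPpos
  obtain ⟨i, hi⟩ : ∃ i, i = p ^ j - n % p ^ j := ⟨_, rfl⟩
  have hi1 : 1 ≤ i := by omega
  have hi2 : i < p ^ j := by omega
  have hdvd : p ^ j ∣ n + i := by
    have h1 : n + i = p ^ j * (n / p ^ j + 1) := by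
      have := Nat.div_add_mod n (p ^ j)
      rw [mul_add, mul_one]
      omega
    exact ⟨_, h1⟩
  have hni : n + i ≠ 0 := by omega
  have ha : j ≤ (n + i).factorization p := (hp.pow_dvd_iff_le_factorization hni).1 hdvd
  have hbig : i < p ^ (n + i).factorization p :=
    lt_of_lt_of_le hi2 (Nat.pow_le_pow_right hp.pos ha)
  have hpd : p ∣ n + i := dvd_trans (dvd_pow_self p (by omega)) hdvd
  -- all other primes have the same exponent in `i` and in `n + i`
  have hother : ∀ l, l.Prime → l ≠ p → (n + i).factorization l = i.factorization l := by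
    intro l hl hlp
    apply le_antisymm
    · rcases Nat.eq_zero_or_pos ((n + i).factorization l) with h0 | h0
      · omega
      have hld : l ∣ n + i := Nat.dvd_of_factorization_pos (by omega)
      have hle : l ^ (n + i).factorization l ≤ i := by
        by_contra hc
        exact hlp (two_comp hn (H i hi1) hl hp hld hpd (not_le.1 hc) hbig)
      have h1 : l ^ (n + i).factorization l ∣ n :=
        hmin _ ((isPrimePow_nat_iff _).2 ⟨l, _, hl, h0, rfl⟩) (lt_of_le_of_lt hle hi2)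
      have h2 : l ^ (n + i).factorization l ∣ n + i := Nat.ordProj_dvd _ _
      have h3 : l ^ (n + i).factorization l ∣ i := (Nat.dvd_add_right h1).1 h2
      exact (hl.pow_dvd_iff_le_factorization (by omega)).1 h3
    · rcases Nat.eq_zero_or_pos (i.factorization l) with h0 | h0
      · omega
      have h2 : l ^ i.factorization l ∣ i := Nat.ordProj_dvd _ _
      have hle : l ^ i.factorization l ≤ i := Nat.le_of_dvd hi1 h2
      have h1 : l ^ i.factorization l ∣ n :=
        hmin _ ((isPrimePow_nat_iff _).2 ⟨l, _, hl, h0, rfl⟩) (lt_of_le_of_lt hle hi2)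
      exact (hl.pow_dvd_iff_le_factorization hni).1 (dvd_add h1 h2)
  have hv : i.factorization p ≤ (n + i).factorization p := by
    have h1 : p ^ i.factorization p ≤ i := Nat.le_of_dvd hi1 (Nat.ordProj_dvd _ _)
    exact le_of_lt ((Nat.pow_lt_pow_iff_right hp.one_lt).1 (lt_of_le_of_lt h1 hbig))
  refine ⟨p, j, i, (n + i).factorization p - i.factorization p, hp, hj, hi1, hi2, ?_, hmin⟩
  apply Nat.eq_of_factorization_eq hni (Nat.mul_ne_zero (by omega) (pow_pos hp.pos _).ne')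
  intro l
  have hi0 : i ≠ 0 := by omega
  rw [Nat.factorization_mul hi0 (pow_pos hp.pos _).ne', hp.factorization_pow]
  by_cases hlp : l = p
  · subst hlp
    simp
    omega
  · by_cases hl : l.Prime
    · rw [hother l hl hlp]
      simp [Ne.symm hlp]
    · rw [Nat.factorization_eq_zero_of_not_prime _ hl]
      simp [Nat.factorization_eq_zero_of_not_prime _ hl, Ne.symm hlp]

/-! ### The exponent is bounded -/

lemma le_of_comps {X K : ℕ} (hX : X ≠ 0) (h : ∀ l, l.Prime → l ∣ X → l ^ X.factorization l ≤ K) :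
    X ≤ K ^ K := by
  rcases Nat.eq_zero_or_pos K with h0 | h0
  · subst h0
    by_cases h1 : X = 1
    · simp [h1]
    · obtain ⟨l, hl, hlX⟩ := Nat.exists_prime_and_dvd h1
      have := h l hl hlX
      have := pow_pos hl.pos (X.factorization l)
      omega
  have h1 : X = ∏ l ∈ X.primeFactors, l ^ X.factorization l := by
    conv_lhs => rw [← Nat.prod_factorization_pow_eq_self hX]
    rfl
  have h2 : ∏ l ∈ X.primeFactors, l ^ X.factorization l ≤ K ^ X.primeFactors.card :=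
    Finset.prod_le_pow_card _ _ _ fun l hl => h l (Nat.prime_of_mem_primeFactors hl)
      (Nat.dvd_of_mem_primeFactors hl)
  have h3 : X.primeFactors ⊆ Finset.Icc 1 K := by
    intro l hl
    have hlp := Nat.prime_of_mem_primeFactors hl
    have hld := Nat.dvd_of_mem_primeFactors hl
    rw [Finset.mem_Icc]
    refine ⟨hlp.one_lt.le, le_trans ?_ (h l hlp hld)⟩
    exact Nat.le_self_pow (hlp.factorization_pos_of_dvd hX hld).ne' l
  have h4 : X.primeFactors.card ≤ K := by
    have := Finset.card_le_card h3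
    simpa using this
  calc X = _ := h1
    _ ≤ _ := h2
    _ ≤ K ^ K := Nat.pow_le_pow_right h0 h4

lemma step_one {n : ℕ} (hn : 1 ≤ n) (H : ∀ k, 1 ≤ k → V n k ≤ 1) {p i c r b : ℕ} (hp : p.Prime)
    (hi : 1 ≤ i) (hc : c = 3 * r + b) (h : n + i = i * p ^ c) :
    p ^ r + 1 ≤ (i * (1 + p ^ b) + 3) ^ (i * (1 + p ^ b) + 3) := by
  obtain ⟨k, hk⟩ : ∃ k, k = i * (1 + p ^ b) := ⟨_, rfl⟩
  obtain ⟨q, hq⟩ : ∃ q, q = p ^ r := ⟨_, rfl⟩
  have hq1 : 1 ≤ q := by rw [hq]; exact pow_pos hp.pos r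
  obtain ⟨Y, hY⟩ : ∃ Y, Y + q = q ^ 2 + 1 := ⟨q ^ 2 + 1 - q, by
    have : q ≤ q ^ 2 := Nat.le_self_pow (by norm_num) q
    omega⟩
  rw [← hk, ← hq]
  have hXY : (q + 1) * Y = q ^ 3 + 1 := by
    have h1 : (q + 1) * Y + (q + 1) * q = (q + 1) * (q ^ 2 + 1) := by rw [← mul_add, hY]
    nlinarith
  have hN : n + k = i * p ^ b * ((q + 1) * Y) := by
    have h1 : q ^ 3 = p ^ (3 * r) := by rw [hq, ← pow_mul]; ring_nf
    rw [hXY, h1, hk]
    have h2 : i * p ^ c = i * (p ^ b * p ^ (3 * r)) := by rw [← pow_add, hc, add_comm b]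
    calc n + i * (1 + p ^ b) = (n + i) + i * p ^ b := by ring
      _ = i * (p ^ b * p ^ (3 * r)) + i * p ^ b := by rw [h, h2]
      _ = _ := by ring
  have hk1 : 1 ≤ k := by
    rw [hk]
    exact Nat.mul_pos hi (by omega)
  have hN0 : n + k ≠ 0 := by omega
  have hX0 : q + 1 ≠ 0 := by omega
  have hqq : q ≤ q ^ 2 := Nat.le_self_pow (by norm_num) q
  have hY0 : Y ≠ 0 := by omega
  have hXd : q + 1 ∣ n + k := ⟨i * p ^ b * Y, by rw [hN]; ring⟩
  have hYd : Y ∣ n + k := ⟨i * p ^ b * (q + 1), by rw [hN]; ring⟩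
  have hmono : k ^ k ≤ (k + 3) ^ (k + 3) :=
    le_trans (Nat.pow_le_pow_left (by omega) k) (Nat.pow_le_pow_right (by omega) (by omega))
  by_cases hex : ∃ l, l.Prime ∧ l ∣ n + k ∧ k < l ^ (n + k).factorization l
  · obtain ⟨l₀, hl₀, hl₀d, hl₀k⟩ := hex
    have hother : ∀ l, l.Prime → l ≠ l₀ → l ∣ n + k → l ^ (n + k).factorization l ≤ k := by
      intro l hl hne hld
      by_contra hcon
      exact hne (two_comp hn (H k hk1) hl hl₀ hld hl₀d (not_le.1 hcon) hl₀k)
    by_cases hlX : l₀ ∣ q + 1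
    · -- the factor `Y`
      have hYle : Y ≤ (k + 3) ^ (k + 3) := by
        apply le_of_comps hY0
        intro l hl hlY
        by_cases hne : l = l₀
        · subst hne
          have h3 : l ∣ 3 * q := by
            have h4 : Y + 3 * q = (q + 1) ^ 2 := by nlinarith
            exact (Nat.dvd_add_right hlY).1 (h4 ▸ dvd_pow hlX (by norm_num))
          have hlq : ¬ l ∣ q := fun h5 => by
            have h6 : l ∣ 1 := (Nat.dvd_add_right h5).1 hlX
            exact hl.one_lt.ne' (Nat.dvd_one.1 h6)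
          have hl3 : l = 3 := by
            rcases (Nat.Prime.dvd_mul hl).1 h3 with h5 | h5
            · exact (Nat.prime_dvd_prime_iff_eq hl Nat.prime_three).1 h5
            · exact absurd h5 hlq
          subst hl3
          have h9 : ¬ 3 ^ 2 ∣ Y := by
            intro h5
            have h4 : Y + 3 * q = (q + 1) ^ 2 := by nlinarith
            have h6 : 3 ^ 2 ∣ (q + 1) ^ 2 := pow_dvd_pow_of_dvd hlX 2
            rw [← h4] at h6
            have h7 : 3 ^ 2 ∣ 3 * q := (Nat.dvd_add_right h5).1 h6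
            have h8 : 3 ∣ q := by
              have : 3 * 3 ∣ 3 * q := by simpa [pow_two] using h7
              exact Nat.dvd_of_mul_dvd_mul_left (by norm_num) this
            exact hlq h8
          have h10 : Y.factorization 3 ≤ 1 := by
            by_contra h11
            exact h9 ((Nat.prime_three.pow_dvd_iff_le_factorization hY0).2 (by omega))
          calc 3 ^ Y.factorization 3 ≤ 3 ^ 1 := Nat.pow_le_pow_right (by norm_num) h10
            _ ≤ k + 3 := by omega
        · have h1 := hother l hl hne (dvd_trans hlY hYd)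
          have h2 : Y.factorization l ≤ (n + k).factorization l :=
            (Nat.factorization_le_iff_dvd hY0 hN0).2 hYd l
          have h3 := Nat.pow_le_pow_right hl.pos h2
          omega
      rcases Nat.lt_or_ge q 2 with h2 | h2
      · have : 2 ≤ (k + 3) ^ (k + 3) := le_trans (by omega : 2 ≤ k + 3) (Nat.le_self_pow (by omega) _)
        omega
      · have : q + 1 ≤ Y := by nlinarith
        omega
    · have hXle : q + 1 ≤ k ^ k := by
        apply le_of_comps hX0
        intro l hl hlX'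
        have hne : l ≠ l₀ := fun h5 => hlX (h5 ▸ hlX')
        have h1 := hother l hl hne (dvd_trans hlX' hXd)
        have h2 : (q + 1).factorization l ≤ (n + k).factorization l :=
          (Nat.factorization_le_iff_dvd hX0 hN0).2 hXd l
        have h3 := Nat.pow_le_pow_right hl.pos h2
        omega
      omega
  · have hXle : q + 1 ≤ k ^ k := by
      apply le_of_comps hX0
      intro l hl hlX
      have h1 : l ^ (n + k).factorization l ≤ k := by
        by_contra hcon
        exact hex ⟨l, hl, dvd_trans hlX hXd, not_le.1 hcon⟩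
      have h2 : (q + 1).factorization l ≤ (n + k).factorization l :=
        (Nat.factorization_le_iff_dvd hX0 hN0).2 hXd l
      have h3 := Nat.pow_le_pow_right hl.pos h2
      omega
    omega


/-! ### The data of a solution -/

/-- `n` has `V n k ≤ 1` for all `k ≥ 1` -/
def Sol (n : ℕ) : Prop := 1 ≤ n ∧ ∀ k, 1 ≤ k → V n k ≤ 1

/-- `p ^ j` is the least prime power that does not divide `n`, and `n = i (p ^ c - 1)` -/
structure Dat (n p j i c : ℕ) : Prop where
  hp : p.Prime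
  hj : 1 ≤ j
  hi : 1 ≤ i
  hi2 : i < p ^ j
  hc : 1 ≤ c
  eq : n + i = i * p ^ c
  pw : ∀ Q, IsPrimePow Q → Q < p ^ j → Q ∣ n

theorem Sol.dat {n : ℕ} (h : Sol n) : ∃ p j i c, Dat n p j i c := by
  obtain ⟨p, j, i, c, hp, hj, hi, hi2, he, hpw⟩ := shape h.1 h.2
  refine ⟨p, j, i, c, hp, hj, hi, hi2, ?_, he, hpw⟩
  rcases Nat.eq_zero_or_pos c with h0 | h0
  · rw [h0, pow_zero, mul_one] at he
    have := h.1
    omega
  · exact h0

theorem Dat.eq' {n p j i c : ℕ} (h : Dat n p j i c) : n = i * (p ^ c - 1) := by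
  have h1 := h.eq
  rw [Nat.mul_sub, mul_one]
  omega

/-- primes below `p ^ j` that do not divide `i` divide `p ^ c - 1` -/
theorem Dat.dvd {n p j i c : ℕ} (h : Dat n p j i c) (l : ℕ) (hl : l.Prime) (hlP : l < p ^ j)
    (hli : ¬ l ∣ i) : l ∣ p ^ c - 1 := by
  have h1 : l ∣ n := h.pw l hl.isPrimePow hlP
  rw [h.eq'] at h1
  exact ((Nat.Prime.dvd_mul hl).1 h1).resolve_left hli

/-! ### The statements of the modules -/

/-- ZSIG. Zsigmondy's theorem. -/
def S_ZSIG : Prop := ∀ p n : ℕ, 3 ≤ p → 3 ≤ n → ∃ l, l.Prime ∧ ∀ m, l ∣ p ^ m - 1 ↔ n ∣ m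

/-- ZB (helper93). If `s` is an odd prime divisor of `c` then `c ≤ s i`. -/
def S_ZB : Prop := ∀ n p i c s w : ℕ, Sol n → p.Prime → 3 ≤ p → 1 ≤ i → n + i = i * p ^ c →
  s.Prime → s ≠ 2 → c = s * w → w ≤ i

/-- LARGE. The count of the primes below `P` by their orders. -/
def S_LARGE : Prop := ∀ P p i c : ℕ, p.Prime → p ≤ P → 1 ≤ i → i < P → c ≠ 0 → c < P ^ 2 →
  (∀ l, l.Prime → l < P → l ≠ p → ¬ l ∣ i → l ∣ p ^ c - 1) → P < 2 ^ 402

/-- MED. Safe primes. -/
def S_MED : Prop := ∀ (P p i c B : ℕ) (S : List ℕ), p.Prime → p ≤ P → 1 ≤ i → i < P → 1 ≤ c → 1 ≤ B →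
  (∀ l, l.Prime → l < P → l ≠ p → ¬ l ∣ i → l ∣ p ^ c - 1) →
  (∀ s, s.Prime → s ≠ 2 → s ∣ c → c ≤ s * i) →
  S.Nodup → (∀ s ∈ S, s.Prime ∧ s ≠ 2 ∧ (2 * s + 1).Prime ∧ s ≤ B ∧ 2 * s + 1 < P) →
  S.prod ≤ B * P ^ 5

/-- LIST. Lists of Sophie Germain primes `s` (`2 s + 1` is prime). -/
def S_LIST : Prop :=
  (∃ S : List ℕ, S.Nodup ∧ (∀ s ∈ S, s.Prime ∧ s ≠ 2 ∧ (2 * s + 1).Prime ∧ s ≤ 491) ∧
    491 * 30000 ^ 5 < S.prod) ∧
  ∃ S : List ℕ, S.Nodup ∧ (∀ s ∈ S, s.Prime ∧ s ≠ 2 ∧ (2 * s + 1).Prime ∧ s ≤ 14999) ∧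
    14999 * (2 ^ 402) ^ 5 < S.prod

/-- PTWO. The case `p = 2`. -/
def S_PTWO : Prop := ∀ n j i c : ℕ, Sol n → 3 ≤ j → Dat n 2 j i c → False

/-- FA. The case `48 ≤ p ^ j ≤ 983`. -/
def S_FA : Prop := ∀ n p j i c : ℕ, Dat n p j i c → 3 ≤ p → 48 ≤ p ^ j → p ^ j ≤ 983 →
  (∀ s, s.Prime → s ≠ 2 → s ∣ c → c ≤ s * i) → False

/-- FB. The case `8 ≤ p ^ j ≤ 47`. -/
def S_FB : Prop := ∀ n p j i c : ℕ, Sol n → Dat n p j i c → 3 ≤ p → 8 ≤ p ^ j → p ^ j ≤ 47 →
  (∀ s, s.Prime → s ≠ 2 → s ∣ c → c ≤ s * i) → False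

/-- The list of the solutions. -/
def sols : List ℕ := [1, 2, 3, 4, 6, 7, 8, 12, 15, 16, 24, 30, 48, 80]

/-- FC. The case `p ^ j ≤ 7`. -/
def S_FC : Prop := ∀ n p j i c : ℕ, Sol n → Dat n p j i c → p ^ j ≤ 7 → n ∈ sols

/-- SOL. The solutions. -/
def S_SOL : Prop := ∀ n ∈ sols, Sol n ∧ ∃ k, 1 ≤ k ∧ V n k = 1

end Pool.Agent.Helper93.VL
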