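import Mathlib
import Pool.Agent.Helper93.VL.Base

/-!
# FA: the case `48 ≤ p ^ j ≤ 983` (module by helper72 for the project of helper93)

For every prime power `P = p ^ j` of the range four pairs `(s, l)` of primes are listed, `s` an odd divisor of
`l - 1`, `l < P`, with `p ^ ((l - 1) / s)` not `1` modulo `l`: if `l ∤ i` then `l ∣ p ^ c - 1`, hence `s ∣ c`.
For every `i < P` the product of the `s` that one gets is larger than `s i` for one of these `s`.
-/

set_option autoImplicit false

namespace Pool.Agent.Helper93.VL.FA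

open Pool.Agent.Helper93.VL

/-- if `s ∤ c`, the order of `p` modulo `l` divides `(l - 1) / s` -/
lemma key {p c l s t : ℕ} (hp : 1 ≤ p) (hl : l.Prime) (hs : s.Prime) (hd : l ∣ p ^ c - 1)
    (ht : l - 1 = t * s) (hne : p ^ t % l ≠ 1) : s ∣ c := by
  have : Fact l.Prime := ⟨hl⟩
  by_contra hsc
  have h1 : ((p : ZMod l)) ^ c = 1 := by
    have h2 : ((p ^ c - 1 : ℕ) : ZMod l) = 0 := (ZMod.natCast_eq_zero_iff _ _).2 hd
    rw [Nat.cast_sub (Nat.one_le_pow _ _ hp)] at h2
    push_cast at h2
    exact sub_eq_zero.1 h2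
  have hc0 : c ≠ 0 := fun h => hsc (h ▸ dvd_zero s)
  have hp0 : (p : ZMod l) ≠ 0 := by
    intro h0
    rw [h0, zero_pow hc0] at h1
    exact zero_ne_one h1
  have h3 : (p : ZMod l) ^ (l - 1) = 1 := ZMod.pow_card_sub_one_eq_one hp0
  have h4 : orderOf (p : ZMod l) ∣ c := orderOf_dvd_of_pow_eq_one h1
  have h5 : orderOf (p : ZMod l) ∣ t * s := by
    rw [← ht]; exact orderOf_dvd_of_pow_eq_one h3
  have h6 : Nat.Coprime (orderOf (p : ZMod l)) s := by
    refine Nat.Coprime.symm ((Nat.Prime.coprime_iff_not_dvd hs).2 fun h => hsc (h.trans h4))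
  have h7 : orderOf (p : ZMod l) ∣ t := h6.dvd_of_dvd_mul_right h5
  have h8 : (p : ZMod l) ^ t = 1 := orderOf_dvd_iff_pow_eq_one.1 h7
  apply hne
  have h9 : ((p ^ t : ℕ) : ZMod l) = ((1 : ℕ) : ZMod l) := by
    push_cast; exact h8
  have h10 := (ZMod.natCast_eq_natCast_iff' _ _ _).1 h9
  rw [h10]
  exact Nat.mod_eq_of_lt hl.one_lt

/-- all numbers below `n` -/
def allB (f : ℕ → Bool) (n : ℕ) : Bool := Nat.rec true (fun k ih => f k && ih) n

lemma allB_sound {f : ℕ → Bool} {n : ℕ} (h : allB f n = true) : ∀ k, k < n → f k = true := by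
  induction n with
  | zero => intro k hk; omega
  | succ n ih =>
    have h' : (f n && allB f n) = true := h
    rw [Bool.and_eq_true] at h'
    intro k hk
    rcases Nat.lt_succ_iff_lt_or_eq.1 hk with h1 | h1
    · exact ih h'.2 k h1
    · rw [h1]; exact h'.1

/-- trial division, for `n < 1024` -/
def isP (n : ℕ) : Bool :=
  Nat.ble 2 n && allB (fun d => Nat.ble d 1 || Nat.ble n d || !(Nat.beq (n % d) 0)) 32

lemma isP_sound {n : ℕ} (hn : n < 1024) (h : isP n = true) : n.Prime := by
  unfold isP at h
  rw [Bool.and_eq_true] at h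
  have h2 : 2 ≤ n := Nat.le_of_ble_eq_true h.1
  have h3 := allB_sound h.2
  by_contra hp
  have h4 : n.minFac ^ 2 ≤ n := Nat.minFac_sq_le_self (by omega) hp
  have h5 : n.minFac < 32 := by nlinarith
  have h6 := h3 _ h5
  have h7 : 2 ≤ n.minFac := (Nat.minFac_prime (by omega)).two_le
  have h8 : n.minFac < n := by nlinarith
  have h9 : n % n.minFac = 0 := Nat.mod_eq_zero_of_dvd n.minFac_dvd
  rw [Bool.or_eq_true, Bool.or_eq_true] at h6
  rcases h6 with (h6 | h6) | h6
  · have := Nat.le_of_ble_eq_true h6; omega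
  · have := Nat.le_of_ble_eq_true h6; omega
  · rw [h9] at h6
    simp at h6

lemma isP_complete {n : ℕ} (hp : n.Prime) : isP n = true := by
  unfold isP
  rw [Bool.and_eq_true]
  refine ⟨Nat.ble_eq_true_of_le hp.two_le, ?_⟩
  have key : ∀ m, allB (fun d => Nat.ble d 1 || Nat.ble n d || !(Nat.beq (n % d) 0)) m = true := by
    intro m
    induction m with
    | zero => rfl
    | succ m ih =>
      show ((Nat.ble m 1 || Nat.ble n m || !(Nat.beq (n % m) 0)) && _) = true
      rw [Bool.and_eq_true]
      refine ⟨?_, ih⟩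
      rw [Bool.or_eq_true, Bool.or_eq_true]
      by_cases h1 : m ≤ 1
      · exact Or.inl (Or.inl (Nat.ble_eq_true_of_le h1))
      by_cases h2 : n ≤ m
      · exact Or.inl (Or.inr (Nat.ble_eq_true_of_le h2))
      right
      have h3 : n % m ≠ 0 := by
        intro h
        have h4 := (Nat.dvd_prime hp).1 (Nat.dvd_of_mod_eq_zero h)
        omega
      rw [Bool.not_eq_true', ← Bool.not_eq_true]
      intro h
      exact h3 (Nat.eq_of_beq_eq_true h)
  exact key 32

/-- the entry `(s, l)` is good for `(P, p)` -/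
def okE (P p : ℕ) (e : ℕ × ℕ) : Bool :=
  isP e.1 && isP e.2 && Nat.ble 3 e.1 && Nat.ble (e.2 + 1) P && !(Nat.beq e.2 p) &&
    Nat.beq (e.2 - 1) ((e.2 - 1) / e.1 * e.1) && !(Nat.beq (p ^ ((e.2 - 1) / e.1) % e.2) 1)

/-- the product of the `s` with `l ∤ i` -/
def prd (i : ℕ) (E : List (ℕ × ℕ)) : ℕ :=
  List.rec 1 (fun e _ ih => bif Nat.beq (i % e.2) 0 then ih else e.1 * ih) E

/-- one of the `s` with `l ∤ i` has `s i < m` -/
def small (i m : ℕ) (E : List (ℕ × ℕ)) : Bool :=
  List.rec false (fun e _ ih => (!(Nat.beq (i % e.2) 0) && Nat.ble (e.1 * i + 1) m) || ih) E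

def okI (E : List (ℕ × ℕ)) (i : ℕ) : Bool := Nat.beq i 0 || small i (prd i E) E

/-- the first components are distinct -/
def nod (E : List (ℕ × ℕ)) : Bool :=
  List.rec true (fun e t ih => t.all (fun e' => !(Nat.beq e'.1 e.1)) && ih) E

def okD (d : ℕ × ℕ × List (ℕ × ℕ)) : Bool :=
  Nat.ble d.1 983 && nod d.2.2 && d.2.2.all (okE d.1 d.2.1) && allB (okI d.2.2) d.1

lemma prd_dvd {c i : ℕ} : ∀ E : List (ℕ × ℕ), nod E = true →
    (∀ e ∈ E, e.1.Prime) → (∀ e ∈ E, ¬ e.2 ∣ i → e.1 ∣ c) →
    prd i E ∣ c ∧ ∀ s, s.Prime → (∀ e ∈ E, e.1 ≠ s) → Nat.Coprime s (prd i E) := by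
  intro E
  induction E with
  | nil =>
    intro _ _ _
    exact ⟨one_dvd _, fun s _ _ => Nat.coprime_one_right s⟩
  | cons e t ih =>
    intro hn hpr hc
    have hn' : (t.all (fun e' => !(Nat.beq e'.1 e.1)) && nod t) = true := hn
    rw [Bool.and_eq_true] at hn'
    have h1 := ih hn'.2 (fun e' he' => hpr e' (List.mem_cons_of_mem _ he'))
      (fun e' he' => hc e' (List.mem_cons_of_mem _ he'))
    have hdef : prd i (e :: t) = bif Nat.beq (i % e.2) 0 then prd i t else e.1 * prd i t := rfl
    have hep : e.1.Prime := hpr e List.mem_cons_self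
    rw [hdef]
    cases hb : Nat.beq (i % e.2) 0
    · rw [cond_false]
      have hnd : ¬ e.2 ∣ i := by
        intro h
        rw [Nat.mod_eq_zero_of_dvd h] at hb
        simp at hb
      have h2 : e.1 ∣ c := hc e List.mem_cons_self hnd
      have hne : ∀ e' ∈ t, e'.1 ≠ e.1 := by
        intro e' he' h
        have h3 := List.all_eq_true.1 hn'.1 e' he'
        rw [h] at h3
        simp at h3
      have h3 : Nat.Coprime e.1 (prd i t) := h1.2 e.1 hep hne
      refine ⟨h3.mul_dvd_of_dvd_of_dvd h2 h1.1, ?_⟩
      intro s hs hsE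
      refine Nat.Coprime.mul_right ?_ (h1.2 s hs fun e' he' => hsE e' (List.mem_cons_of_mem _ he'))
      exact (Nat.coprime_primes hs hep).2 (fun h => hsE e List.mem_cons_self h.symm)
    · rw [cond_true]
      exact ⟨h1.1, fun s hs hsE => h1.2 s hs fun e' he' => hsE e' (List.mem_cons_of_mem _ he')⟩

lemma small_sound {i m : ℕ} : ∀ E : List (ℕ × ℕ), small i m E = true →
    ∃ e ∈ E, ¬ e.2 ∣ i ∧ e.1 * i < m := by
  intro E
  induction E with
  | nil => intro h; exact absurd h (by simp [small])
  | cons e t ih =>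
    intro h
    have h' : ((!(Nat.beq (i % e.2) 0) && Nat.ble (e.1 * i + 1) m) || small i m t) = true := h
    rw [Bool.or_eq_true, Bool.and_eq_true] at h'
    rcases h' with ⟨h1, h2⟩ | h1
    · refine ⟨e, List.mem_cons_self, ?_, Nat.le_of_ble_eq_true h2⟩
      intro h3
      rw [Nat.mod_eq_zero_of_dvd h3] at h1
      simp at h1
    · obtain ⟨e', he', h2⟩ := ih h1
      exact ⟨e', List.mem_cons_of_mem _ he', h2⟩

lemma okD_sound {d : ℕ × ℕ × List (ℕ × ℕ)} (h : okD d = true) {n j i c : ℕ} (hd : d.1 = d.2.1 ^ j)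
    (D : Dat n d.2.1 j i c) (hs : ∀ s, s.Prime → s ≠ 2 → s ∣ c → c ≤ s * i) : False := by
  obtain ⟨P, p, E⟩ := d
  simp only at hd D
  unfold okD at h
  simp only [Bool.and_eq_true] at h
  obtain ⟨⟨⟨hP, hn⟩, hE⟩, hI⟩ := h
  have hP' : P ≤ 983 := Nat.le_of_ble_eq_true hP
  have hok : ∀ e ∈ E, e.1.Prime ∧ e.1 ≠ 2 ∧ (¬ e.2 ∣ i → e.1 ∣ c) := by
    intro e he
    have h1 := List.all_eq_true.1 hE e he
    unfold okE at h1
    simp only [Bool.and_eq_true] at h1
    obtain ⟨⟨⟨⟨⟨⟨a1, a2⟩, a3⟩, a4⟩, a5⟩, a6⟩, a7⟩ := h1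
    have b4 : e.2 + 1 ≤ P := Nat.le_of_ble_eq_true a4
    have b3 : 3 ≤ e.1 := Nat.le_of_ble_eq_true a3
    have b6 : e.2 - 1 = (e.2 - 1) / e.1 * e.1 := Nat.eq_of_beq_eq_true a6
    have hl : e.2.Prime := isP_sound (by omega) a2
    have b1 : e.1 ≤ e.2 - 1 := by
      have h2 : (e.2 - 1) / e.1 ≠ 0 := by
        intro h0
        rw [h0, zero_mul] at b6
        have := hl.two_le
        omega
      calc e.1 = 1 * e.1 := (one_mul _).symm
        _ ≤ (e.2 - 1) / e.1 * e.1 := Nat.mul_le_mul_right _ (Nat.one_le_iff_ne_zero.2 h2)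
        _ = e.2 - 1 := b6.symm
    have hsp : e.1.Prime := isP_sound (by omega) a1
    refine ⟨hsp, by omega, fun hli => ?_⟩
    have hne : e.2 ≠ p := by
      intro h
      rw [h] at a5
      simp at a5
    have hdv : e.2 ∣ p ^ c - 1 := D.dvd e.2 hl (by rw [← hd]; omega) hli
    refine key D.hp.one_lt.le hl hsp hdv b6 ?_
    intro h
    rw [h] at a7
    simp at a7
  have hiP : i < P := by rw [hd]; exact D.hi2
  have h1 := allB_sound hI i hiP
  unfold okI at h1
  rw [Bool.or_eq_true] at h1
  rcases h1 with h1 | h1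
  · have := Nat.eq_of_beq_eq_true h1
    have := D.hi
    omega
  · obtain ⟨e, he, hei, hlt⟩ := small_sound E h1
    have h2 := (prd_dvd (c := c) (i := i) E hn (fun e he => (hok e he).1) (fun e he => (hok e he).2.2)).1
    have h3 := Nat.le_of_dvd D.hc h2
    have h4 := hs e.1 (hok e he).1 (hok e he).2.1 ((hok e he).2.2 hei)
    omega

/-- the data: `(p ^ j, p, [(s, l), ...])` -/
def dat : List (ℕ × ℕ × List (ℕ × ℕ)) := [
    (49, 7, [(5, 11), (7, 29), (11, 23), (23, 47)]), (53, 53, [(5, 11), (7, 29), (11, 23), (23, 47)]),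
    (59, 59, [(7, 43), (11, 23), (13, 53), (23, 47)]), (61, 61, [(11, 23), (13, 53), (23, 47), (29, 59)]),
    (67, 67, [(11, 23), (13, 53), (23, 47), (29, 59)]), (71, 71, [(11, 23), (13, 53), (23, 47), (29, 59)]),
    (73, 73, [(11, 23), (13, 53), (23, 47), (29, 59)]), (79, 79, [(11, 23), (13, 53), (23, 47), (29, 59)]),
    (81, 3, [(11, 23), (13, 53), (23, 47), (29, 59)]), (83, 83, [(11, 23), (13, 79), (23, 47), (29, 59)]),
    (89, 89, [(13, 53), (23, 47), (29, 59), (41, 83)]), (97, 97, [(13, 53), (23, 47), (29, 59), (41, 83)]),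
    (101, 101, [(13, 53), (23, 47), (29, 59), (41, 83)]), (103, 103, [(13, 53), (23, 47), (29, 59), (41, 83)]),
    (107, 107, [(17, 103), (23, 47), (29, 59), (41, 83)]), (109, 109, [(23, 47), (29, 59), (41, 83), (53, 107)]),
    (113, 113, [(23, 47), (29, 59), (41, 83), (53, 107)]), (121, 11, [(23, 47), (29, 59), (41, 83), (53, 107)]),
    (125, 5, [(23, 47), (29, 59), (41, 83), (53, 107)]), (127, 127, [(23, 47), (29, 59), (41, 83), (53, 107)]),
    (131, 131, [(23, 47), (29, 59), (41, 83), (53, 107)]), (137, 137, [(23, 47), (29, 59), (41, 83), (53, 107)]),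
    (139, 139, [(23, 47), (29, 59), (41, 83), (53, 107)]), (149, 149, [(23, 47), (29, 59), (41, 83), (53, 107)]),
    (151, 151, [(29, 59), (37, 149), (41, 83), (53, 107)]), (157, 157, [(29, 59), (37, 149), (41, 83), (53, 107)]),
    (163, 163, [(29, 59), (37, 149), (41, 83), (53, 107)]), (167, 167, [(23, 47), (29, 59), (37, 149), (53, 107)]),
    (169, 13, [(37, 149), (41, 83), (53, 107), (83, 167)]), (173, 173, [(37, 149), (41, 83), (53, 107), (83, 167)]),
    (179, 179, [(41, 83), (43, 173), (53, 107), (83, 167)]), (181, 181, [(43, 173), (53, 107), (83, 167), (89, 179)]),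
    (191, 191, [(43, 173), (53, 107), (83, 167), (89, 179)]), (193, 193, [(43, 173), (53, 107), (83, 167), (89, 179)]),
    (197, 197, [(43, 173), (53, 107), (83, 167), (89, 179)]), (199, 199, [(43, 173), (53, 107), (83, 167), (89, 179)]),
    (211, 211, [(43, 173), (53, 107), (83, 167), (89, 179)]), (223, 223, [(43, 173), (53, 107), (83, 167), (89, 179)]),
    (227, 227, [(43, 173), (53, 107), (83, 167), (89, 179)]), (229, 229, [(53, 107), (83, 167), (89, 179), (113, 227)]),
    (233, 233, [(53, 107), (83, 167), (89, 179), (113, 227)]), (239, 239, [(53, 107), (83, 167), (89, 179), (113, 227)]),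
    (241, 241, [(53, 107), (83, 167), (89, 179), (113, 227)]), (243, 3, [(53, 107), (83, 167), (89, 179), (113, 227)]),
    (251, 251, [(53, 107), (83, 167), (89, 179), (113, 227)]), (257, 257, [(53, 107), (83, 167), (89, 179), (113, 227)]),
    (263, 263, [(53, 107), (83, 167), (89, 179), (113, 227)]), (269, 269, [(83, 167), (89, 179), (113, 227), (131, 263)]),
    (271, 271, [(83, 167), (89, 179), (113, 227), (131, 263)]), (277, 277, [(83, 167), (89, 179), (113, 227), (131, 263)]),
    (281, 281, [(83, 167), (89, 179), (113, 227), (131, 263)]), (283, 283, [(83, 167), (89, 179), (113, 227), (131, 263)]),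
    (289, 17, [(83, 167), (89, 179), (113, 227), (131, 263)]), (293, 293, [(83, 167), (89, 179), (113, 227), (131, 263)]),
    (307, 307, [(83, 167), (89, 179), (113, 227), (131, 263)]), (311, 311, [(83, 167), (89, 179), (113, 227), (131, 263)]),
    (313, 313, [(83, 167), (89, 179), (113, 227), (131, 263)]), (317, 317, [(83, 167), (89, 179), (113, 227), (131, 263)]),
    (331, 331, [(83, 167), (89, 179), (113, 227), (131, 263)]), (337, 337, [(83, 167), (89, 179), (113, 227), (131, 263)]),
    (343, 7, [(83, 167), (89, 179), (113, 227), (131, 263)]), (347, 347, [(83, 167), (89, 179), (113, 227), (131, 263)]),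
    (349, 349, [(89, 179), (113, 227), (131, 263), (173, 347)]), (353, 353, [(89, 179), (113, 227), (131, 263), (173, 347)]),
    (359, 359, [(83, 167), (113, 227), (131, 263), (173, 347)]), (361, 19, [(113, 227), (131, 263), (173, 347), (179, 359)]),
    (367, 367, [(113, 227), (131, 263), (173, 347), (179, 359)]), (373, 373, [(113, 227), (131, 263), (173, 347), (179, 359)]),
    (379, 379, [(113, 227), (131, 263), (173, 347), (179, 359)]), (383, 383, [(113, 227), (131, 263), (173, 347), (179, 359)]),
    (389, 389, [(131, 263), (173, 347), (179, 359), (191, 383)]), (397, 397, [(131, 263), (173, 347), (179, 359), (191, 383)]),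
    (401, 401, [(131, 263), (173, 347), (179, 359), (191, 383)]), (409, 409, [(131, 263), (173, 347), (179, 359), (191, 383)]),
    (419, 419, [(131, 263), (173, 347), (179, 359), (191, 383)]), (421, 421, [(131, 263), (173, 347), (179, 359), (191, 383)]),
    (431, 431, [(131, 263), (173, 347), (179, 359), (191, 383)]), (433, 433, [(131, 263), (173, 347), (179, 359), (191, 383)]),
    (439, 439, [(131, 263), (173, 347), (179, 359), (191, 383)]), (443, 443, [(131, 263), (173, 347), (179, 359), (191, 383)]),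
    (449, 449, [(131, 263), (173, 347), (179, 359), (191, 383)]), (457, 457, [(131, 263), (173, 347), (179, 359), (191, 383)]),
    (461, 461, [(131, 263), (173, 347), (179, 359), (191, 383)]), (463, 463, [(131, 263), (173, 347), (179, 359), (191, 383)]),
    (467, 467, [(131, 263), (173, 347), (179, 359), (191, 383)]), (479, 479, [(173, 347), (179, 359), (191, 383), (233, 467)]),
    (487, 487, [(179, 359), (191, 383), (233, 467), (239, 479)]), (491, 491, [(179, 359), (191, 383), (233, 467), (239, 479)]),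
    (499, 499, [(179, 359), (191, 383), (233, 467), (239, 479)]), (503, 503, [(179, 359), (191, 383), (233, 467), (239, 479)]),
    (509, 509, [(191, 383), (233, 467), (239, 479), (251, 503)]), (521, 521, [(191, 383), (233, 467), (239, 479), (251, 503)]),
    (523, 523, [(191, 383), (233, 467), (239, 479), (251, 503)]), (529, 23, [(191, 383), (233, 467), (239, 479), (251, 503)]),
    (541, 541, [(191, 383), (233, 467), (239, 479), (251, 503)]), (547, 547, [(191, 383), (233, 467), (239, 479), (251, 503)]),
    (557, 557, [(191, 383), (233, 467), (239, 479), (251, 503)]), (563, 563, [(191, 383), (233, 467), (239, 479), (251, 503)]),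
    (569, 569, [(233, 467), (239, 479), (251, 503), (281, 563)]), (571, 571, [(233, 467), (239, 479), (251, 503), (281, 563)]),
    (577, 577, [(233, 467), (239, 479), (251, 503), (281, 563)]), (587, 587, [(233, 467), (239, 479), (251, 503), (281, 563)]),
    (593, 593, [(239, 479), (251, 503), (281, 563), (293, 587)]), (599, 599, [(239, 479), (251, 503), (281, 563), (293, 587)]),
    (601, 601, [(239, 479), (251, 503), (281, 563), (293, 587)]), (607, 607, [(239, 479), (251, 503), (281, 563), (293, 587)]),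
    (613, 613, [(239, 479), (251, 503), (281, 563), (293, 587)]), (617, 617, [(239, 479), (251, 503), (281, 563), (293, 587)]),
    (619, 619, [(239, 479), (251, 503), (281, 563), (293, 587)]), (625, 5, [(239, 479), (251, 503), (281, 563), (293, 587)]),
    (631, 631, [(239, 479), (251, 503), (281, 563), (293, 587)]), (641, 641, [(239, 479), (251, 503), (281, 563), (293, 587)]),
    (643, 643, [(239, 479), (251, 503), (281, 563), (293, 587)]), (647, 647, [(239, 479), (251, 503), (281, 563), (293, 587)]),
    (653, 653, [(239, 479), (251, 503), (281, 563), (293, 587)]), (659, 659, [(239, 479), (251, 503), (281, 563), (293, 587)]),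
    (661, 661, [(239, 479), (251, 503), (281, 563), (293, 587)]), (673, 673, [(239, 479), (251, 503), (281, 563), (293, 587)]),
    (677, 677, [(239, 479), (251, 503), (281, 563), (293, 587)]), (683, 683, [(239, 479), (251, 503), (281, 563), (293, 587)]),
    (691, 691, [(239, 479), (251, 503), (281, 563), (293, 587)]), (701, 701, [(239, 479), (251, 503), (281, 563), (293, 587)]),
    (709, 709, [(239, 479), (251, 503), (281, 563), (293, 587)]), (719, 719, [(239, 479), (251, 503), (281, 563), (293, 587)]),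
    (727, 727, [(251, 503), (281, 563), (293, 587), (359, 719)]), (729, 3, [(251, 503), (281, 563), (293, 587), (359, 719)]),
    (733, 733, [(251, 503), (281, 563), (293, 587), (359, 719)]), (739, 739, [(251, 503), (281, 563), (293, 587), (359, 719)]),
    (743, 743, [(251, 503), (281, 563), (293, 587), (359, 719)]), (751, 751, [(251, 503), (281, 563), (293, 587), (359, 719)]),
    (757, 757, [(251, 503), (281, 563), (293, 587), (359, 719)]), (761, 761, [(251, 503), (281, 563), (293, 587), (359, 719)]),
    (769, 769, [(251, 503), (281, 563), (293, 587), (359, 719)]), (773, 773, [(251, 503), (281, 563), (293, 587), (359, 719)]),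
    (787, 787, [(251, 503), (281, 563), (293, 587), (359, 719)]), (797, 797, [(251, 503), (281, 563), (293, 587), (359, 719)]),
    (809, 809, [(251, 503), (281, 563), (293, 587), (359, 719)]), (811, 811, [(251, 503), (281, 563), (293, 587), (359, 719)]),
    (821, 821, [(251, 503), (281, 563), (293, 587), (359, 719)]), (823, 823, [(251, 503), (281, 563), (293, 587), (359, 719)]),
    (827, 827, [(251, 503), (281, 563), (293, 587), (359, 719)]), (829, 829, [(251, 503), (281, 563), (293, 587), (359, 719)]),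
    (839, 839, [(251, 503), (281, 563), (293, 587), (359, 719)]), (841, 29, [(281, 563), (293, 587), (359, 719), (419, 839)]),
    (853, 853, [(281, 563), (293, 587), (359, 719), (419, 839)]), (857, 857, [(281, 563), (293, 587), (359, 719), (419, 839)]),
    (859, 859, [(281, 563), (293, 587), (359, 719), (419, 839)]), (863, 863, [(281, 563), (293, 587), (359, 719), (419, 839)]),
    (877, 877, [(293, 587), (359, 719), (419, 839), (431, 863)]), (881, 881, [(293, 587), (359, 719), (419, 839), (431, 863)]),
    (883, 883, [(293, 587), (359, 719), (419, 839), (431, 863)]), (887, 887, [(293, 587), (359, 719), (419, 839), (431, 863)]),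
    (907, 907, [(359, 719), (419, 839), (431, 863), (443, 887)]), (911, 911, [(359, 719), (419, 839), (431, 863), (443, 887)]),
    (919, 919, [(359, 719), (419, 839), (431, 863), (443, 887)]), (929, 929, [(359, 719), (419, 839), (431, 863), (443, 887)]),
    (937, 937, [(359, 719), (419, 839), (431, 863), (443, 887)]), (941, 941, [(359, 719), (419, 839), (431, 863), (443, 887)]),
    (947, 947, [(359, 719), (419, 839), (431, 863), (443, 887)]), (953, 953, [(359, 719), (419, 839), (431, 863), (443, 887)]),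
    (961, 31, [(359, 719), (419, 839), (431, 863), (443, 887)]), (967, 967, [(359, 719), (419, 839), (431, 863), (443, 887)]),
    (971, 971, [(359, 719), (419, 839), (431, 863), (443, 887)]), (977, 977, [(359, 719), (419, 839), (431, 863), (443, 887)]),
    (983, 983, [(359, 719), (419, 839), (431, 863), (443, 887)])]

theorem dat_ok : dat.all okD = true := by decide +kernel

/-- the data contain all prime powers of the range -/
def cov : Bool := allB (fun p => !(isP p && Nat.ble 3 p) || allB (fun j => !(Nat.ble 48 (p ^ j) && Nat.ble (p ^ j) 983) ||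
    dat.any (fun d => Nat.beq d.1 (p ^ j) && Nat.beq d.2.1 p)) 7) 984

theorem cov_ok : cov = true := by decide +kernel

theorem main : S_FA := by
  intro n p j i c D hp3 h48 h983 hs
  have hple : p ≤ p ^ j := Nat.le_self_pow (by have := D.hj; omega) p
  have h1 := allB_sound cov_ok p (by omega)
  have hj : j < 7 := by
    by_contra hj
    have h2 : 3 ^ 7 ≤ p ^ j :=
      le_trans (Nat.pow_le_pow_left hp3 7) (Nat.pow_le_pow_right D.hp.pos (by omega))
    norm_num at h2
    omega
  rw [isP_complete D.hp, Nat.ble_eq_true_of_le hp3] at h1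
  have h2 : allB (fun j => !(Nat.ble 48 (p ^ j) && Nat.ble (p ^ j) 983) ||
    dat.any (fun d => Nat.beq d.1 (p ^ j) && Nat.beq d.2.1 p)) 7 = true := by simpa using h1
  have h3 := allB_sound h2 j hj
  rw [Nat.ble_eq_true_of_le h48, Nat.ble_eq_true_of_le h983] at h3
  have h4 : dat.any (fun d => Nat.beq d.1 (p ^ j) && Nat.beq d.2.1 p) = true := by simpa using h3
  obtain ⟨d, hd, h5⟩ := List.any_eq_true.1 h4
  rw [Bool.and_eq_true] at h5
  have h6 : d.1 = p ^ j := Nat.eq_of_beq_eq_true h5.1
  have h7 : d.2.1 = p := Nat.eq_of_beq_eq_true h5.2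
  subst h7
  exact okD_sound (List.all_eq_true.1 dat_ok d hd) h6 D hs

end Pool.Agent.Helper93.VL.FA
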