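import Pool.Agent.Helper93.VL.Base

/-!
# The case `8 ≤ p ^ j ≤ 47`
-/

set_option autoImplicit false

namespace Pool.Agent.Helper93.VL.FB

open Pool.Agent.Helper93.VL

/-! ### Certificates for `¬ Sol n` -/

/-- If the exact power `l ^ v` of `l` in `n + k` is larger than `k` and the cofactor does not divide a
common multiple of `1, ..., k`, then `n` is not a solution. -/
theorem viol_sound {n k l v m L : ℕ} (hk : 1 ≤ k) (hl : l.Prime) (he : n + k = l ^ v * m)
    (hlm : ¬ l ∣ m) (hv : k < l ^ v) (hL : ∀ x, 1 ≤ x → x ≤ k → x ∣ L) (hm : ¬ m ∣ L) : ¬ Sol n := by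
  intro hS
  have hm0 : m ≠ 0 := by
    rintro rfl
    exact hlm (dvd_zero _)
  have hN0 : n + k ≠ 0 := by omega
  -- a prime power of `m` which does not divide `L`
  obtain ⟨r, hr, hrL⟩ : ∃ r, r.Prime ∧ ¬ r ^ m.factorization r ∣ L := by
    by_contra hcon
    push Not at hcon
    apply hm
    rw [Nat.dvd_iff_prime_pow_dvd_dvd]
    intro r e hr hd
    have h1 : e ≤ m.factorization r := (hr.pow_dvd_iff_le_factorization hm0).1 hd
    exact (pow_dvd_pow r h1).trans (hcon r hr)
  have hrk : k < r ^ m.factorization r := by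
    by_contra hcon
    exact hrL (hL _ (pow_pos hr.pos _) (not_lt.1 hcon))
  have hrm : r ∣ m := by
    by_contra hcon
    rw [Nat.factorization_eq_zero_of_not_dvd hcon, pow_zero] at hrk
    omega
  have hrl : r ≠ l := by
    rintro rfl
    exact hlm hrm
  have hv0 : v ≠ 0 := by
    rintro rfl
    rw [pow_zero] at hv
    omega
  have f1 : (n + k).factorization l = v := by
    rw [he, Nat.factorization_mul (pow_pos hl.pos v).ne' hm0, hl.factorization_pow]
    simp [Nat.factorization_eq_zero_of_not_dvd hlm]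
  have f2 : (n + k).factorization r = m.factorization r := by
    rw [he, Nat.factorization_mul (pow_pos hl.pos v).ne' hm0, hl.factorization_pow]
    simp [Ne.symm hrl]
  exact hrl (two_comp hS.1 (hS.2 k hk) hr hl (by rw [he]; exact hrm.mul_left _)
    (by rw [he]; exact (dvd_pow_self l hv0).mul_right _) (by rw [f2]; exact hrk)
    (by rw [f1]; exact hv))

/-- remove the factor `l` -/
def strip (l : ℕ) : ℕ → ℕ → ℕ × ℕ
  | 0, m => (0, m)
  | f + 1, m => if m % l = 0 then ((strip l f (m / l)).1 + 1, (strip l f (m / l)).2) else (0, m)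

theorem strip_eq (l : ℕ) (f m : ℕ) : m = l ^ (strip l f m).1 * (strip l f m).2 := by
  induction f generalizing m with
  | zero => simp [strip]
  | succ f ih =>
    rw [strip]
    split_ifs with h
    · have h1 := ih (m / l)
      have h2 : m = l * (m / l) := (Nat.mul_div_cancel' (Nat.dvd_of_mod_eq_zero h)).symm
      calc m = l * (m / l) := h2
        _ = l * (l ^ (strip l f (m / l)).1 * (strip l f (m / l)).2) := by rw [← h1]
        _ = _ := by
          rw [pow_succ]
          ring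
    · simp

/-- Boolean test for a violation with the prime `l` -/
def violAt (n k l : ℕ) : Bool :=
  let r := strip l 12 (n + k)
  decide (1 ≤ k) && decide (k ≤ 12) && decide (k < l ^ r.1) && decide (r.2 % l ≠ 0) &&
    decide (27720 % r.2 ≠ 0)

theorem violAt_sound {n k l : ℕ} (hl : l.Prime) (h : violAt n k l = true) : ¬ Sol n := by
  simp only [violAt, Bool.and_eq_true, decide_eq_true_eq] at h
  obtain ⟨⟨⟨⟨h1, h2⟩, h3⟩, h4⟩, h5⟩ := h
  refine viol_sound h1 hl (strip_eq l 12 (n + k)) ?_ h3 (L := 27720) ?_ ?_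
  · intro hd
    exact h4 (Nat.mod_eq_zero_of_dvd hd)
  · intro x hx1 hx2
    have : x ≤ 12 := by omega
    interval_cases x <;> norm_num
  · intro hd
    exact h5 (Nat.mod_eq_zero_of_dvd hd)

/-- small primes -/
def sp : List ℕ := [2, 3, 5, 7, 11, 13, 17, 19, 23, 29, 31, 37]

theorem sp_prime : ∀ l ∈ sp, l.Prime := by
  intro l hl
  simp only [sp, List.mem_cons, List.not_mem_nil, or_false] at hl
  rcases hl with h | h | h | h | h | h | h | h | h | h | h | h <;> subst h <;> norm_num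

def viol (n : ℕ) : Bool := sp.any fun l => violAt n (l - n % l) l || violAt n (2 * l - n % l) l ||
  violAt n (3 * l - n % l) l || violAt n (4 * l - n % l) l

theorem viol_not_sol {n : ℕ} (h : viol n = true) : ¬ Sol n := by
  simp only [viol, List.any_eq_true, Bool.or_eq_true] at h
  obtain ⟨l, hl, h⟩ := h
  rcases h with ((h | h) | h) | h <;> exact violAt_sound (sp_prime l hl) h

/-! ### The order of `p` -/

/-- If `p ^ (s ^ a t) = 1`, `p ^ t ≠ 1` and `p ^ c = 1` modulo `m`, then `s ∣ c`. -/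
theorem dvd_of_order {p m s a t c : ℕ} (hs : s.Prime) (h1 : (p : ZMod m) ^ (s ^ a * t) = 1)
    (h2 : (p : ZMod m) ^ t ≠ 1) (h3 : (p : ZMod m) ^ c = 1) : s ∣ c := by
  by_contra hcon
  apply h2
  have h4 : orderOf (p : ZMod m) ∣ s ^ a * t := orderOf_dvd_of_pow_eq_one h1
  have h5 : orderOf (p : ZMod m) ∣ c := orderOf_dvd_of_pow_eq_one h3
  have h6 : Nat.Coprime (orderOf (p : ZMod m)) (s ^ a) := by
    apply Nat.Coprime.pow_right
    rw [Nat.coprime_comm, hs.coprime_iff_not_dvd]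
    exact fun h => hcon (h.trans h5)
  exact orderOf_dvd_iff_pow_eq_one.1 (h6.dvd_of_dvd_mul_left h4)

theorem zmod_pow_eq_one {p m e : ℕ} (hm : 1 < m) : (p : ZMod m) ^ e = 1 ↔ p ^ e % m = 1 := by
  have h1 : ((p : ZMod m)) ^ e = ((p ^ e : ℕ) : ZMod m) := by push_cast; rfl
  have h2 : (1 : ZMod m) = ((1 : ℕ) : ZMod m) := by push_cast; rfl
  rw [h1, h2, ZMod.natCast_eq_natCast_iff', Nat.mod_eq_of_lt hm]

/-! ### The check -/

/-- `(q, s, a, t)`: a prime power `q`, an odd prime `s` and `φ(q) = s ^ a t` -/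
def T2 : List (ℕ × ℕ × ℕ × ℕ) := [(7, 3, 1, 2), (9, 3, 1, 2), (11, 5, 1, 2), (13, 3, 1, 4),
  (19, 3, 2, 2), (23, 11, 1, 2), (25, 5, 1, 4), (27, 3, 2, 2), (29, 7, 1, 4), (31, 3, 1, 10),
  (31, 5, 1, 6), (37, 3, 2, 4), (41, 5, 1, 8), (43, 3, 1, 14), (43, 7, 1, 6)]

theorem T2_ok : ∀ x ∈ T2, IsPrimePow x.1 ∧ x.2.1.Prime ∧ x.2.1 ≠ 2 := by
  have pw : ∀ r k : ℕ, r.Prime → 0 < k → IsPrimePow (r ^ k) := fun r k hr hk =>
    hr.isPrimePow.pow hk.ne'
  intro x hx
  simp only [T2, List.mem_cons, List.not_mem_nil, or_false] at hx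
  rcases hx with h | h | h | h | h | h | h | h | h | h | h | h | h | h | h <;> subst h
  · exact ⟨pw 7 1 (by norm_num) one_pos, by norm_num, by norm_num⟩
  · exact ⟨pw 3 2 (by norm_num) two_pos, by norm_num, by norm_num⟩
  · exact ⟨pw 11 1 (by norm_num) one_pos, by norm_num, by norm_num⟩
  · exact ⟨pw 13 1 (by norm_num) one_pos, by norm_num, by norm_num⟩
  · exact ⟨pw 19 1 (by norm_num) one_pos, by norm_num, by norm_num⟩
  · exact ⟨pw 23 1 (by norm_num) one_pos, by norm_num, by norm_num⟩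
  · exact ⟨pw 5 2 (by norm_num) two_pos, by norm_num, by norm_num⟩
  · exact ⟨pw 3 3 (by norm_num) three_pos, by norm_num, by norm_num⟩
  · exact ⟨pw 29 1 (by norm_num) one_pos, by norm_num, by norm_num⟩
  · exact ⟨pw 31 1 (by norm_num) one_pos, by norm_num, by norm_num⟩
  · exact ⟨pw 31 1 (by norm_num) one_pos, by norm_num, by norm_num⟩
  · exact ⟨pw 37 1 (by norm_num) one_pos, by norm_num, by norm_num⟩
  · exact ⟨pw 41 1 (by norm_num) one_pos, by norm_num, by norm_num⟩
  · exact ⟨pw 43 1 (by norm_num) one_pos, by norm_num, by norm_num⟩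
  · exact ⟨pw 43 1 (by norm_num) one_pos, by norm_num, by norm_num⟩

/-- the prime powers below `47` -/
def PQ : List ℕ := [2, 3, 4, 5, 7, 8, 9, 11, 13, 16, 17, 19, 23, 25, 27, 29, 31, 32, 37, 41, 43]

theorem PQ_ok : ∀ q ∈ PQ, IsPrimePow q := by
  have pw : ∀ r k : ℕ, r.Prime → 0 < k → IsPrimePow (r ^ k) := fun r k hr hk =>
    hr.isPrimePow.pow hk.ne'
  intro q hq
  simp only [PQ, List.mem_cons, List.not_mem_nil, or_false] at hq
  rcases hq with h | h | h | h | h | h | h | h | h | h | h | h | h | h | h | h | h | h | h | h | h <;>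
    subst h
  · exact pw 2 1 (by norm_num) (by norm_num)
  · exact pw 3 1 (by norm_num) (by norm_num)
  · exact pw 2 2 (by norm_num) (by norm_num)
  · exact pw 5 1 (by norm_num) (by norm_num)
  · exact pw 7 1 (by norm_num) (by norm_num)
  · exact pw 2 3 (by norm_num) (by norm_num)
  · exact pw 3 2 (by norm_num) (by norm_num)
  · exact pw 11 1 (by norm_num) (by norm_num)
  · exact pw 13 1 (by norm_num) (by norm_num)
  · exact pw 2 4 (by norm_num) (by norm_num)
  · exact pw 17 1 (by norm_num) (by norm_num)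
  · exact pw 19 1 (by norm_num) (by norm_num)
  · exact pw 23 1 (by norm_num) (by norm_num)
  · exact pw 5 2 (by norm_num) (by norm_num)
  · exact pw 3 3 (by norm_num) (by norm_num)
  · exact pw 29 1 (by norm_num) (by norm_num)
  · exact pw 31 1 (by norm_num) (by norm_num)
  · exact pw 2 5 (by norm_num) (by norm_num)
  · exact pw 37 1 (by norm_num) (by norm_num)
  · exact pw 41 1 (by norm_num) (by norm_num)
  · exact pw 43 1 (by norm_num) (by norm_num)

/-- the check of one exponent -/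
def okC (P p i c : ℕ) : Bool :=
  (PQ.any fun q => decide (q < P) && decide ((i * (p ^ c - 1)) % q ≠ 0)) || viol (i * (p ^ c - 1))

/-- the check of one `i` with the certificate `x` -/
def okX (P p i : ℕ) (x : ℕ × ℕ × ℕ × ℕ) : Bool :=
  decide (x.1 < P) && decide (1 < x.1 / Nat.gcd x.1 i) &&
    decide (p ^ (x.2.1 ^ x.2.2.1 * x.2.2.2) % (x.1 / Nat.gcd x.1 i) = 1) &&
    decide (p ^ x.2.2.2 % (x.1 / Nat.gcd x.1 i) ≠ 1) &&
    (List.range (x.2.1 * i)).all fun c => okC P p i (c + 1)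

/-- the check of one `i` -/
def okI (P p P' i : ℕ) : Bool := decide (i % P' ≠ 0) || T2.any fun x => okX P p i x

/-- the triples `P = p ^ j`, `p`, `P' = p ^ (j - 1)` -/
def okP (P p P' : ℕ) : Bool := (List.range (P - 1)).all fun i => okI P p P' (i + 1)

/-- the triples `P = p ^ j`, `p`, `P' = p ^ (j - 1)` with `8 ≤ P ≤ 47` -/
def Ls : List (ℕ × ℕ × ℕ) := [(9, 3, 3), (11, 11, 1), (13, 13, 1), (17, 17, 1), (19, 19, 1),
  (23, 23, 1), (25, 5, 5), (27, 3, 9), (29, 29, 1), (31, 31, 1), (37, 37, 1), (41, 41, 1),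
  (43, 43, 1), (47, 47, 1)]

theorem check : (Ls.all fun x => okP x.1 x.2.1 x.2.2) = true := by
  decide +kernel

def enumC (p j : ℕ) : Bool :=
  !(decide (3 ≤ p) && decide (8 ≤ p ^ j) && decide (p ^ j ≤ 47) && decide (p % 2 ≠ 0) &&
    (decide (p = 3) || decide (p % 3 ≠ 0)) && (decide (p = 5) || decide (p % 5 ≠ 0))) ||
    decide ((p ^ j, p, p ^ (j - 1)) ∈ Ls)

theorem enum_check : ((List.range 48).all fun p => (List.range 4).all fun j => enumC p j) = true := by
  decide +kernel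

theorem enum {p j : ℕ} (hp : p < 48) (hj : j < 4) (h3 : 3 ≤ p) (h8 : 8 ≤ p ^ j) (h47 : p ^ j ≤ 47)
    (h2 : p % 2 ≠ 0) (h3' : p = 3 ∨ p % 3 ≠ 0) (h5 : p = 5 ∨ p % 5 ≠ 0) :
    (p ^ j, p, p ^ (j - 1)) ∈ Ls := by
  have h := List.all_eq_true.1 (List.all_eq_true.1 enum_check p (List.mem_range.2 hp)) j
    (List.mem_range.2 hj)
  rw [enumC, Bool.or_eq_true, decide_eq_true_eq] at h
  rcases h with h | h
  · exfalso
    have h' : (decide (3 ≤ p) && decide (8 ≤ p ^ j) && decide (p ^ j ≤ 47) && decide (p % 2 ≠ 0) &&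
        (decide (p = 3) || decide (p % 3 ≠ 0)) && (decide (p = 5) || decide (p % 5 ≠ 0))) = true := by
      simp only [Bool.and_eq_true, Bool.or_eq_true, decide_eq_true_eq]
      exact ⟨⟨⟨⟨⟨h3, h8⟩, h47⟩, h2⟩, h3'⟩, h5⟩
    rw [h'] at h
    exact absurd h (by decide)
  · exact h

/-- soundness -/
theorem okP_sound {n p j i c : ℕ} (hS : Sol n) (h : Dat n p j i c)
    (hz : ∀ s, s.Prime → s ≠ 2 → s ∣ c → c ≤ s * i) {P' : ℕ} (hP' : P' = p ^ (j - 1))
    (hok : okP (p ^ j) p P' = true) : False := by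
  obtain ⟨P, hP⟩ : ∃ P, P = p ^ j := ⟨_, rfl⟩
  have hp := h.hp
  have hi := h.hi
  have hi2 := h.hi2
  have hj := h.hj
  have hc := h.hc
  have hn := h.eq'
  have hpw := h.pw
  have hx1 : 1 ≤ p ^ c := Nat.one_le_pow _ _ hp.pos
  have hcop : Nat.Coprime p (p ^ c - 1) := by
    have h1 : p ∣ p ^ c := dvd_pow_self p (by omega)
    rw [hp.coprime_iff_not_dvd]
    intro h2
    have h3 := Nat.dvd_sub h1 h2
    have h4 : p ^ c - (p ^ c - 1) = 1 := by omega
    rw [h4] at h3
    exact hp.one_lt.ne' (Nat.dvd_one.1 h3)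
  rw [← hP] at hok hi2 hpw
  rw [okP, List.all_eq_true] at hok
  have h1 := hok (i - 1) (by rw [List.mem_range]; omega)
  rw [show i - 1 + 1 = i by omega, okI, Bool.or_eq_true, decide_eq_true_eq] at h1
  rcases h1 with h1 | h1
  · -- `p ^ (j - 1)` divides `i`
    apply h1
    apply Nat.mod_eq_zero_of_dvd
    rcases Nat.lt_or_ge 1 j with hj1 | hj1
    · have h2 : IsPrimePow P' := by
        rw [hP']
        exact hp.isPrimePow.pow (by omega)
      have h3 : P' < P := by
        rw [hP', hP]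
        exact Nat.pow_lt_pow_right hp.one_lt (by omega)
      have h4 := hpw P' h2 h3
      rw [hn] at h4
      have h5 : Nat.Coprime P' (p ^ c - 1) := by
        rw [hP']
        exact Nat.Coprime.pow_left _ hcop
      exact h5.dvd_of_dvd_mul_right h4
    · have : j = 1 := by omega
      rw [hP', this]
      simp
  · rw [List.any_eq_true] at h1
    obtain ⟨x, hx, h1⟩ := h1
    obtain ⟨hq, hs, hs2⟩ := T2_ok x hx
    obtain ⟨q, s, a, t⟩ := x
    simp only [okX, Bool.and_eq_true, decide_eq_true_eq] at h1 hq hs hs2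
    obtain ⟨⟨⟨⟨h2, h3⟩, h4⟩, h5⟩, h6⟩ := h1
    -- `p ^ c = 1` modulo `m`
    have h7 : q / Nat.gcd q i ∣ p ^ c - 1 := by
      have h8 := hpw q hq h2
      rw [hn] at h8
      have hg : 0 < Nat.gcd q i := Nat.gcd_pos_of_pos_right _ hi
      have h9 : Nat.Coprime (q / Nat.gcd q i) (i / Nat.gcd q i) := Nat.coprime_div_gcd_div_gcd hg
      have h10 : q / Nat.gcd q i ∣ i / Nat.gcd q i * (p ^ c - 1) := by
        obtain ⟨u, hu⟩ := Nat.gcd_dvd_left q i
        obtain ⟨w, hw⟩ := Nat.gcd_dvd_right q i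
        have e1 : q / Nat.gcd q i = u := Nat.div_eq_of_eq_mul_right hg hu
        have e2 : i / Nat.gcd q i = w := Nat.div_eq_of_eq_mul_right hg hw
        rw [e1, e2]
        have h11 : Nat.gcd q i * u ∣ Nat.gcd q i * (w * (p ^ c - 1)) := by
          rw [← hu, ← mul_assoc, ← hw]
          exact h8
        exact Nat.dvd_of_mul_dvd_mul_left hg h11
      exact h9.dvd_of_dvd_mul_left h10
    have h8 : (p : ZMod (q / Nat.gcd q i)) ^ c = 1 := by
      have h9 : ((p ^ c - 1 : ℕ) : ZMod (q / Nat.gcd q i)) = 0 :=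
        (ZMod.natCast_eq_zero_iff _ _).2 h7
      rw [Nat.cast_sub hx1] at h9
      push_cast at h9
      exact sub_eq_zero.1 h9
    have h9 : s ∣ c := dvd_of_order hs ((zmod_pow_eq_one h3).2 h4)
      (fun h => h5 ((zmod_pow_eq_one h3).1 h)) h8
    have h10 := hz s hs hs2 h9
    rw [List.all_eq_true] at h6
    have h11 := h6 (c - 1) (by rw [List.mem_range]; omega)
    rw [show c - 1 + 1 = c by omega, okC, ← hn, Bool.or_eq_true, List.any_eq_true] at h11
    rcases h11 with ⟨q', hq', h11⟩ | h11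
    · rw [Bool.and_eq_true, decide_eq_true_eq, decide_eq_true_eq] at h11
      exact h11.2 (Nat.mod_eq_zero_of_dvd (hpw q' (PQ_ok q' hq') h11.1))
    · exact viol_not_sol h11 hS

theorem main : S_FB := by
  intro n p j i c hS h hp3 h8 h47 hz
  have hp := h.hp
  have hj := h.hj
  have hpP : p ≤ p ^ j := Nat.le_self_pow (by omega) p
  have hj4 : j < 4 := by
    by_contra hcon
    have h1 : 3 ^ 4 ≤ p ^ j :=
      (Nat.pow_le_pow_left hp3 4).trans (Nat.pow_le_pow_right (by omega) (by omega))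
    omega
  have h2 : p % 2 ≠ 0 := by
    intro h0
    have := (Nat.prime_dvd_prime_iff_eq Nat.prime_two hp).1 (Nat.dvd_of_mod_eq_zero h0)
    omega
  have h3 : p = 3 ∨ p % 3 ≠ 0 := by
    by_cases h0 : p % 3 = 0
    · exact Or.inl ((Nat.prime_dvd_prime_iff_eq Nat.prime_three hp).1
        (Nat.dvd_of_mod_eq_zero h0)).symm
    · exact Or.inr h0
  have h5 : p = 5 ∨ p % 5 ≠ 0 := by
    by_cases h0 : p % 5 = 0
    · exact Or.inl ((Nat.prime_dvd_prime_iff_eq Nat.prime_five hp).1
        (Nat.dvd_of_mod_eq_zero h0)).symm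
    · exact Or.inr h0
  have hmem := enum (by omega) hj4 hp3 h8 h47 h2 h3 h5
  have hck := List.all_eq_true.1 check _ hmem
  exact okP_sound hS h hz rfl hck

end Pool.Agent.Helper93.VL.FB
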