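import Pool.Agent.Helper93.VL.Base

/-!
# FC: the case `p ^ j ≤ 7`
-/

set_option autoImplicit false

namespace Pool.Agent.Helper93.VL.FC

/-! ### The check -/

/-- `lcm (1, ..., k)` for `k ≤ 12` -/
def lc (k : ℕ) : ℕ :=
  bif Nat.ble k 1 then 1 else bif Nat.ble k 2 then 2 else bif Nat.ble k 3 then 6 else
  bif Nat.ble k 4 then 12 else bif Nat.ble k 6 then 60 else bif Nat.ble k 7 then 420 else
  bif Nat.ble k 8 then 840 else bif Nat.ble k 10 then 2520 else 27720

theorem dvd_lc {k x : ℕ} (hk : k ≤ 12) (hx : 1 ≤ x) (hxk : x ≤ k) : x ∣ lc k := by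
  interval_cases k <;> interval_cases x <;> decide

/-- remove the factors `l` of `m` (at most `f` of them) -/
def strip (l : ℕ) : ℕ → ℕ → ℕ
  | 0, m => m
  | f + 1, m => bif Nat.beq (m % l) 0 then strip l f (m / l) else m

theorem strip_spec (l : ℕ) : ∀ f m : ℕ, ∃ v, m = l ^ v * strip l f m := by
  intro f
  induction f with
  | zero =>
    intro m
    exact ⟨0, by simp [strip]⟩
  | succ f ih =>
    intro m
    rw [strip]
    by_cases h : m % l = 0
    · obtain ⟨v, hv⟩ := ih (m / l)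
      refine ⟨v + 1, ?_⟩
      have h1 : Nat.beq (m % l) 0 = true := by rw [Nat.beq_eq]; exact h
      rw [h1, cond_true, pow_succ']
      have h2 : m = l * (m / l) := by
        have := Nat.div_add_mod m l
        omega
      calc m = l * (m / l) := h2
        _ = l * (l ^ v * strip l f (m / l)) := by rw [← hv]
        _ = _ := by ring
    · refine ⟨0, ?_⟩
      have h1 : Nat.beq (m % l) 0 = false := by
        rw [Bool.eq_false_iff]
        intro h2
        rw [Nat.beq_eq] at h2
        exact h h2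
      rw [h1, cond_false, pow_zero, one_mul]

/-- the second half of the test: `m` is the stripped number -/
def test2 (k l m : ℕ) : Bool :=
  Nat.ble k 12 && (!(Nat.beq (m % l) 0) && !(Nat.beq (lc k % m) 0))

/-- the test for `k + 1` and `l` -/
def test1 (N l : ℕ) : ℕ → Bool
  | 0 => false
  | k + 1 => Nat.ble (k + 2) l && (Nat.ble (k + 1) 12 && test2 (k + 1) l (strip l 20 (N + (k + 1))))

/-- the test for `l` -/
def test (N l : ℕ) : Bool := test1 N l (l - N % l)

/-- the list of the primes used -/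
def LL : List ℕ := [3, 5, 7, 11, 13, 17, 19, 23, 29, 31, 37, 41, 43, 47, 53, 59, 61, 67, 71, 73, 79, 83, 89,
  97, 101, 103, 107, 109]

theorem LL_prime : ∀ l ∈ LL, l.Prime := by
  intro l hl
  simp only [LL, List.mem_cons, List.not_mem_nil, or_false] at hl
  rcases hl with rfl | rfl | rfl | rfl | rfl | rfl | rfl | rfl | rfl | rfl | rfl | rfl | rfl | rfl | rfl |
    rfl | rfl | rfl | rfl | rfl | rfl | rfl | rfl | rfl | rfl | rfl | rfl | rfl <;> norm_num

/-- the check for `N = m + 1` -/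
def good (Qs : List ℕ) : ℕ → Bool
  | 0 => true
  | m + 1 => Qs.any (fun Q => !(Nat.beq ((m + 1) % Q) 0)) ||
      ((Nat.ble m 80 && sols.any (fun x => Nat.beq x (m + 1))) || LL.any (fun l => test (m + 1) l))

/-- the check for `c = 30 a + b`, `a < A`, `b < 30`, and all `i < P` -/
def check (Qs : List ℕ) (p P A : ℕ) : Bool :=
  (List.range A).all fun a => (List.range 30).all fun b => (List.range P).all fun i =>
    good Qs (i * (p ^ (30 * a + b) - 1))

/-! ### Soundness -/

theorem contra {n k l m v : ℕ} (h : Sol n) (hk : 1 ≤ k) (hl : l.Prime) (hm : n + k = l ^ v * m)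
    (hlm : ¬ l ∣ m) (hkl : k < l ^ v) (L : ℕ) (hL : ∀ x, 1 ≤ x → x ≤ k → x ∣ L) (hmL : ¬ m ∣ L) :
    False := by
  have hn := h.1
  have hnk : n + k ≠ 0 := by omega
  rw [Nat.dvd_iff_prime_pow_dvd_dvd] at hmL
  push Not at hmL
  obtain ⟨q, b, hq, hqm, hqL⟩ := hmL
  have hqb0 : 1 ≤ q ^ b := Nat.one_le_pow _ _ hq.pos
  have hqb : k < q ^ b := by
    by_contra hc
    exact hqL (hL _ hqb0 (not_lt.1 hc))
  have hb : b ≠ 0 := by
    rintro rfl
    exact hqL (by rw [pow_zero]; exact one_dvd _)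
  have hv : v ≠ 0 := by
    rintro rfl
    rw [pow_zero] at hkl
    omega
  have hlv : l ^ v ∣ n + k := ⟨m, hm⟩
  have hqbd : q ^ b ∣ n + k := hqm.trans ⟨l ^ v, by rw [hm, mul_comm]⟩
  have h1 : v ≤ (n + k).factorization l := (hl.pow_dvd_iff_le_factorization hnk).1 hlv
  have h2 : b ≤ (n + k).factorization q := (hq.pow_dvd_iff_le_factorization hnk).1 hqbd
  have h3 : l = q := two_comp hn (h.2 k hk) hl hq ((dvd_pow_self l hv).trans hlv)
    ((dvd_pow_self q hb).trans hqbd) (lt_of_lt_of_le hkl (Nat.pow_le_pow_right hl.pos h1))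
    (lt_of_lt_of_le hqb (Nat.pow_le_pow_right hq.pos h2))
  exact hlm (h3 ▸ (dvd_pow_self q hb).trans hqm)

theorem beq_false {a b : ℕ} (h : (!(Nat.beq a b)) = true) : a ≠ b := by
  intro h1
  subst h1
  simp at h

theorem test_sound {n l : ℕ} (h : Sol n) (hl : l.Prime) (ht : test n l = true) : False := by
  unfold test at ht
  have hmod : n % l < l := Nat.mod_lt _ hl.pos
  obtain ⟨k, hk⟩ : ∃ k, l - n % l = k + 1 := ⟨l - n % l - 1, by omega⟩
  rw [hk, test1, Bool.and_eq_true, Bool.and_eq_true] at ht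
  obtain ⟨h1, h2, h3⟩ := ht
  rw [Nat.ble_eq] at h1 h2
  obtain ⟨m, hm⟩ : ∃ m, m = strip l 20 (n + (k + 1)) := ⟨_, rfl⟩
  rw [← hm, test2, Bool.and_eq_true, Bool.and_eq_true] at h3
  obtain ⟨-, h4, h5⟩ := h3
  have h4' := beq_false h4
  have h5' := beq_false h5
  obtain ⟨v, hv⟩ := strip_spec l 20 (n + (k + 1))
  rw [← hm] at hv
  have hlm : ¬ l ∣ m := fun h6 => h4' (Nat.mod_eq_zero_of_dvd h6)
  have hln : l ∣ n + (k + 1) := by
    have h6 : n + (k + 1) = l * (n / l + 1) := by
      have := Nat.div_add_mod n l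
      rw [mul_add, mul_one]
      omega
    exact ⟨_, h6⟩
  have hv0 : v ≠ 0 := by
    rintro rfl
    rw [pow_zero, one_mul] at hv
    exact hlm (hv ▸ hln)
  have hlv : l ≤ l ^ v := Nat.le_self_pow hv0 l
  exact contra h (by omega) hl hv hlm (by omega) (lc (k + 1)) (fun x hx hxk => dvd_lc h2 hx hxk)
    (fun h6 => h5' (Nat.mod_eq_zero_of_dvd h6))

theorem good_sound {n : ℕ} {Qs : List ℕ} (h : Sol n) (hg : good Qs n = true)
    (hQ : ∀ Q ∈ Qs, Q ∣ n) : n ∈ sols := by
  obtain ⟨m, rfl⟩ : ∃ m, n = m + 1 := ⟨n - 1, by have := h.1; omega⟩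
  rw [good, Bool.or_eq_true, Bool.or_eq_true, Bool.and_eq_true] at hg
  rcases hg with hg | hg | hg
  · rw [List.any_eq_true] at hg
    obtain ⟨Q, hQm, h1⟩ := hg
    exact absurd (Nat.mod_eq_zero_of_dvd (hQ Q hQm)) (beq_false h1)
  · rw [List.any_eq_true] at hg
    obtain ⟨-, x, hx, h1⟩ := hg
    rw [Nat.beq_eq] at h1
    rw [← h1]
    exact hx
  · rw [List.any_eq_true] at hg
    obtain ⟨l, hl, h1⟩ := hg
    exact (test_sound h (LL_prime l hl) h1).elim

theorem fin {n p P i c A : ℕ} {Qs : List ℕ} (h : Sol n) (hchk : check Qs p P A = true) (hi : i < P)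
    (hc : c < 30 * A) (hn : n = i * (p ^ c - 1)) (hQ : ∀ Q ∈ Qs, Q ∣ n) : n ∈ sols := by
  rw [check, List.all_eq_true] at hchk
  have h1 := hchk (c / 30) (List.mem_range.2 (by omega))
  rw [List.all_eq_true] at h1
  have h2 := h1 (c % 30) (List.mem_range.2 (by omega))
  rw [List.all_eq_true] at h2
  have h3 := h2 i (List.mem_range.2 hi)
  have h4 : 30 * (c / 30) + c % 30 = c := Nat.div_add_mod c 30
  rw [h4, ← hn] at h3
  exact good_sound h h3 hQ

theorem c_lt {n p i c K R A : ℕ} (h : Sol n) (hp : p.Prime) (hi : 1 ≤ i) (he : n + i = i * p ^ c)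
    (hK : i * (1 + p ^ 2) + 3 ≤ K) (hKR : K ^ K < p ^ R) (hA : 3 * R ≤ 30 * A) : c < 30 * A := by
  have h1 := step_one h.1 h.2 hp hi (Nat.div_add_mod c 3).symm he
  have hb : c % 3 ≤ 2 := by omega
  have h2 : p ^ (c % 3) ≤ p ^ 2 := Nat.pow_le_pow_right hp.pos hb
  have h3 : i * (1 + p ^ (c % 3)) + 3 ≤ K := by
    have : i * (1 + p ^ (c % 3)) ≤ i * (1 + p ^ 2) := Nat.mul_le_mul_left _ (by omega)
    omega
  have h4 : (i * (1 + p ^ (c % 3)) + 3) ^ (i * (1 + p ^ (c % 3)) + 3) ≤ K ^ K :=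
    le_trans (Nat.pow_le_pow_left h3 _) (Nat.pow_le_pow_right (by omega) h3)
  have h5 : p ^ (c / 3) < p ^ R := by omega
  have h6 : c / 3 < R := (Nat.pow_lt_pow_iff_right hp.one_lt).1 h5
  omega

/-! ### The computations -/

theorem check2 : check [] 2 2 3 = true := by decide +kernel

theorem check3 : check [2] 3 3 7 = true := by decide +kernel

theorem check4 : check [2, 3] 2 4 8 = true := by decide +kernel

theorem check5 : check [2, 3, 4] 5 5 32 = true := by decide +kernel

theorem check7 : check [2, 3, 4, 5] 7 7 90 = true := by decide +kernel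

theorem pow2 : 8 ^ 8 < 2 ^ 25 := by decide +kernel
theorem pow3 : 23 ^ 23 < 3 ^ 70 := by decide +kernel
theorem pow4 : 18 ^ 18 < 2 ^ 80 := by decide +kernel
theorem pow5 : 107 ^ 107 < 5 ^ 320 := by decide +kernel
theorem pow7 : 303 ^ 303 < 7 ^ 900 := by decide +kernel

theorem pp2 : IsPrimePow 2 := Nat.prime_two.isPrimePow
theorem pp3 : IsPrimePow 3 := Nat.prime_three.isPrimePow
theorem pp4 : IsPrimePow 4 := by
  rw [isPrimePow_nat_iff]
  exact ⟨2, 2, Nat.prime_two, by norm_num, by norm_num⟩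
theorem pp5 : IsPrimePow 5 := Nat.prime_five.isPrimePow

theorem main : S_FC := by
  intro n p j i c h hd hP
  have hp := hd.hp
  have hj := hd.hj
  have hi := hd.hi
  have hi2 := hd.hi2
  have he := hd.eq
  have he' := hd.eq'
  have hpw := hd.pw
  have hpP : p ≤ p ^ j := Nat.le_self_pow (by omega) p
  have hp7 : p ≤ 7 := le_trans hpP hP
  have hp2 := hp.two_le
  have hj3 : j < 3 := by
    by_contra hc
    have h1 : 2 ^ 3 ≤ p ^ j :=
      le_trans (Nat.pow_le_pow_left hp2 3) (Nat.pow_le_pow_right hp.pos (not_lt.1 hc))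
    omega
  have hcases : (p = 2 ∧ j = 1) ∨ (p = 2 ∧ j = 2) ∨ (p = 3 ∧ j = 1) ∨ (p = 5 ∧ j = 1) ∨
      (p = 7 ∧ j = 1) := by
    interval_cases p <;> interval_cases j <;> first | (exfalso; revert hp; norm_num; done) | (exfalso; omega) | simp
  rcases hcases with ⟨rfl, rfl⟩ | ⟨rfl, rfl⟩ | ⟨rfl, rfl⟩ | ⟨rfl, rfl⟩ | ⟨rfl, rfl⟩
  · have hc := c_lt (K := 8) (R := 25) (A := 3) h hp hi he (by omega) pow2 (by norm_num)
    exact fin h check2 (by omega) hc he' (by simp)
  · have hc := c_lt (K := 18) (R := 80) (A := 8) h hp hi he (by omega) pow4 (by norm_num)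
    refine fin h check4 (by omega) hc he' ?_
    intro Q hQ
    simp only [List.mem_cons, List.not_mem_nil, or_false] at hQ
    rcases hQ with rfl | rfl
    · exact hpw _ pp2 (by norm_num)
    · exact hpw _ pp3 (by norm_num)
  · have hc := c_lt (K := 23) (R := 70) (A := 7) h hp hi he (by omega) pow3 (by norm_num)
    refine fin h check3 (by omega) hc he' ?_
    intro Q hQ
    simp only [List.mem_cons, List.not_mem_nil, or_false] at hQ
    rcases hQ with rfl
    exact hpw _ pp2 (by norm_num)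
  · have hc := c_lt (K := 107) (R := 320) (A := 32) h hp hi he (by omega) pow5 (by norm_num)
    refine fin h check5 (by omega) hc he' ?_
    intro Q hQ
    simp only [List.mem_cons, List.not_mem_nil, or_false] at hQ
    rcases hQ with rfl | rfl | rfl
    · exact hpw _ pp2 (by norm_num)
    · exact hpw _ pp3 (by norm_num)
    · exact hpw _ pp4 (by norm_num)
  · have hc := c_lt (K := 303) (R := 900) (A := 90) h hp hi he (by omega) pow7 (by norm_num)
    refine fin h check7 (by omega) hc he' ?_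
    intro Q hQ
    simp only [List.mem_cons, List.not_mem_nil, or_false] at hQ
    rcases hQ with rfl | rfl | rfl | rfl
    · exact hpw _ pp2 (by norm_num)
    · exact hpw _ pp3 (by norm_num)
    · exact hpw _ pp4 (by norm_num)
    · exact hpw _ pp5 (by norm_num)

end Pool.Agent.Helper93.VL.FC
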