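import Pool.Agent.Helper93.VL.Base

/-!
# LARGE: the count of the primes below `P` by their orders
-/

set_option autoImplicit false

namespace Pool.Agent.Helper93.VL.LARGE

lemma pow_five_two (a : ℕ) : (a + 1) ^ 5 ≤ 263 * 2 ^ a := by
  rcases Nat.lt_or_ge a 6 with h | h
  · interval_cases a <;> norm_num
  · obtain ⟨x, rfl⟩ : ∃ x, a = x + 6 := ⟨a - 6, by omega⟩
    induction x with
    | zero => norm_num
    | succ x ih =>
      have h1 : 2 * (x + 6 + 1) ^ 5 = (x + 1 + 6 + 1) ^ 5 +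
          (x ^ 5 + 30 * x ^ 4 + 340 * x ^ 3 + 1740 * x ^ 2 + 3530 * x + 846) := by ring
      have h2 : 263 * 2 ^ (x + 1 + 6) = 2 * (263 * 2 ^ (x + 6)) := by ring
      have h3 := ih (by omega)
      omega

lemma pow_five_three (a : ℕ) : (a + 1) ^ 5 ≤ 39 * 3 ^ a := by
  rcases Nat.lt_or_ge a 4 with h | h
  · interval_cases a <;> norm_num
  · obtain ⟨x, rfl⟩ : ∃ x, a = x + 4 := ⟨a - 4, by omega⟩
    induction x with
    | zero => norm_num
    | succ x ih =>
      have h1 : 3 * (x + 4 + 1) ^ 5 = (x + 1 + 4 + 1) ^ 5 +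
          (2 * x ^ 5 + 45 * x ^ 4 + 390 * x ^ 3 + 1590 * x ^ 2 + 2895 * x + 1599) := by ring
      have h2 : 39 * 3 ^ (x + 1 + 4) = 3 * (39 * 3 ^ (x + 4)) := by ring
      have h3 := ih (by omega)
      omega

/-- the constants -/
def ff (l : ℕ) : ℕ := if l = 2 then 263 else if l < 32 then 39 else 1

lemma one_le_ff (l : ℕ) : 1 ≤ ff l := by
  unfold ff
  split_ifs <;> norm_num

lemma prod_ff (s : Finset ℕ) (hs : ∀ l ∈ s, l.Prime) : ∏ l ∈ s, ff l ≤ 263 * 39 ^ 10 := by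
  have h1 : ∏ l ∈ s, ff l = ∏ l ∈ s.filter (fun l => l < 32), ff l := by
    rw [Finset.prod_filter]
    refine Finset.prod_congr rfl fun l _ => ?_
    split_ifs with h
    · rfl
    · unfold ff
      rw [if_neg (by omega), if_neg h]
  rw [h1]
  have h2 : s.filter (fun l => l < 32) ⊆ (Finset.range 32).filter Nat.Prime := by
    intro l hl
    rw [Finset.mem_filter] at hl ⊢
    exact ⟨Finset.mem_range.2 hl.2, hs l hl.1⟩
  calc _ ≤ ∏ l ∈ (Finset.range 32).filter Nat.Prime, ff l :=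
        Finset.prod_le_prod_of_subset_of_one_le' h2 fun l _ _ => one_le_ff l
    _ = 263 * 39 ^ 10 := by decide +kernel

lemma tau_bound (n : ℕ) (hn : n ≠ 0) : n.divisors.card ^ 5 ≤ (263 * 39 ^ 10) * n := by
  have h1 : n = ∏ l ∈ n.primeFactors, l ^ n.factorization l := by
    conv_lhs => rw [← Nat.prod_factorization_pow_eq_self hn]
    rfl
  have h2 : ∏ l ∈ n.primeFactors, (n.factorization l + 1) ^ 5 ≤
      ∏ l ∈ n.primeFactors, (ff l * l ^ n.factorization l) := by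
    apply Finset.prod_le_prod'
    intro l hl
    have hlp := Nat.prime_of_mem_primeFactors hl
    unfold ff
    split_ifs with h h'
    · rw [h]
      exact pow_five_two _
    · have h3 : 3 ≤ l := by
        have := hlp.two_le
        omega
      exact le_trans (pow_five_three _) (Nat.mul_le_mul_left _ (Nat.pow_le_pow_left h3 _))
    · rw [one_mul]
      calc (n.factorization l + 1) ^ 5 ≤ (2 ^ n.factorization l) ^ 5 :=
            Nat.pow_le_pow_left (Nat.lt_two_pow_self) 5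
        _ = 32 ^ n.factorization l := by rw [← pow_mul, mul_comm, pow_mul]; norm_num
        _ ≤ _ := Nat.pow_le_pow_left (by omega) _
  rw [Nat.card_divisors hn, ← Finset.prod_pow]
  calc _ ≤ _ := h2
    _ = (∏ l ∈ n.primeFactors, ff l) *
        ∏ l ∈ n.primeFactors, l ^ n.factorization l := Finset.prod_mul_distrib
    _ ≤ _ := by
      rw [← h1]
      exact Nat.mul_le_mul_right _ (prod_ff _ fun l hl => Nat.prime_of_mem_primeFactors hl)

/-- the primes `l < P`, `l ≠ p`, `l ∤ i` -/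
def Sset (P p i : ℕ) : Finset ℕ := (Finset.range P).filter (fun l => l.Prime ∧ l ≠ p ∧ ¬ l ∣ i)

lemma fiber_bound {P L p i d : ℕ} (hp : p.Prime) (hpP : p ≤ P) (hPL : P ≤ 2 ^ L) (hd : 1 ≤ d) :
    ((Sset P p i).filter (fun l => orderOf (p : ZMod l) = d)).card ^ 2 ≤ P * L := by
  obtain ⟨F, hF⟩ : ∃ F, F = (Sset P p i).filter (fun l => orderOf (p : ZMod l) = d) := ⟨_, rfl⟩
  rw [← hF]
  have hmem : ∀ l ∈ F, l.Prime ∧ l ≠ p ∧ l < P ∧ orderOf (p : ZMod l) = d := by
    intro l hl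
    rw [hF, Finset.mem_filter, Sset, Finset.mem_filter, Finset.mem_range] at hl
    exact ⟨hl.1.2.1, hl.1.2.2.1, hl.1.1, hl.2⟩
  -- first bound
  have h1 : d * F.card ≤ P := by
    have h2 : ∀ l ∈ F, d ∣ l - 1 := by
      intro l hl
      obtain ⟨hlp, hne, hlP, hord⟩ := hmem l hl
      have : Fact l.Prime := ⟨hlp⟩
      rw [← hord]
      apply ZMod.orderOf_dvd_card_sub_one
      intro h0
      rw [ZMod.natCast_eq_zero_iff] at h0
      exact hne ((Nat.prime_dvd_prime_iff_eq hlp hp).1 h0)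
    have h3 : F.card ≤ (Finset.Icc 1 ((P - 1) / d)).card := by
      apply Finset.card_le_card_of_injOn (fun l => (l - 1) / d)
      · intro l hl
        obtain ⟨hlp, hne, hlP, hord⟩ := hmem l hl
        obtain ⟨t, ht⟩ := h2 l hl
        have hl2 := hlp.two_le
        simp only [Finset.coe_Icc, Set.mem_Icc]
        refine ⟨?_, Nat.div_le_div_right (by omega)⟩
        rw [ht, Nat.mul_div_cancel_left _ (by omega)]
        rcases Nat.eq_zero_or_pos t with h0 | h0
        · rw [h0, mul_zero] at ht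
          omega
        · exact h0
      · intro l hl l' hl' heq
        obtain ⟨t, ht⟩ := h2 l hl
        obtain ⟨t', ht'⟩ := h2 l' hl'
        have hl2 := (hmem l hl).1.two_le
        have hl2' := (hmem l' hl').1.two_le
        simp only at heq
        rw [ht, ht', Nat.mul_div_cancel_left _ (by omega), Nat.mul_div_cancel_left _ (by omega)] at heq
        rw [heq] at ht
        omega
    rw [Nat.card_Icc, Nat.add_sub_cancel] at h3
    calc d * F.card ≤ d * ((P - 1) / d) := Nat.mul_le_mul_left _ h3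
      _ ≤ P - 1 := Nat.mul_div_le _ _
      _ ≤ P := Nat.sub_le _ _
  -- second bound
  have h2 : F.card ≤ L * d := by
    have h3 : ∏ l ∈ F, l ∣ p ^ d - 1 := by
      apply Finset.prod_primes_dvd
      · intro l hl
        exact (hmem l hl).1.prime
      · intro l hl
        obtain ⟨hlp, hne, hlP, hord⟩ := hmem l hl
        have h4 : ((p : ZMod l)) ^ d = 1 := by rw [← hord]; exact pow_orderOf_eq_one _
        have h5 : 1 ≤ p ^ d := Nat.one_le_pow _ _ hp.pos
        rw [← ZMod.natCast_eq_zero_iff, Nat.cast_sub h5]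
        push_cast
        rw [h4, sub_self]
    have hp2 := hp.two_le
    have h4 : p ^ d - 1 ≠ 0 := by
      have : p ^ 1 ≤ p ^ d := Nat.pow_le_pow_right hp.pos hd
      rw [pow_one] at this
      omega
    have h5 : 2 ^ F.card ≤ ∏ l ∈ F, l := by
      rw [← Finset.prod_const]
      exact Finset.prod_le_prod' (fun l hl => (hmem l hl).1.two_le)
    have h6 : 2 ^ F.card ≤ 2 ^ (L * d) := by
      calc 2 ^ F.card ≤ _ := h5
        _ ≤ p ^ d - 1 := Nat.le_of_dvd (Nat.pos_of_ne_zero h4) h3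
        _ ≤ p ^ d := Nat.sub_le _ _
        _ ≤ (2 ^ L) ^ d := Nat.pow_le_pow_left (le_trans hpP hPL) d
        _ = 2 ^ (L * d) := by rw [← pow_mul]
    exact (Nat.pow_le_pow_iff_right (by norm_num)).1 h6
  calc F.card ^ 2 = F.card * F.card := by ring
    _ ≤ F.card * (L * d) := Nat.mul_le_mul_left _ h2
    _ = (d * F.card) * L := by ring
    _ ≤ P * L := Nat.mul_le_mul_right _ h1

lemma count_bound {P L p i c : ℕ} (hp : p.Prime) (hpP : p ≤ P) (hPL : P ≤ 2 ^ L) (hc : c ≠ 0)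
    (h : ∀ l ∈ Sset P p i, l ∣ p ^ c - 1) :
    (Sset P p i).card ^ 2 ≤ c.divisors.card ^ 2 * (P * L) := by
  have hmaps : ∀ l ∈ Sset P p i, orderOf (p : ZMod l) ∈ c.divisors := by
    intro l hl
    have hd := h l hl
    rw [Nat.mem_divisors]
    refine ⟨?_, hc⟩
    apply orderOf_dvd_of_pow_eq_one
    have h5 : 1 ≤ p ^ c := Nat.one_le_pow _ _ hp.pos
    rw [← ZMod.natCast_eq_zero_iff, Nat.cast_sub h5] at hd
    push_cast at hd
    exact sub_eq_zero.1 hd
  rw [Finset.card_eq_sum_card_fiberwise hmaps]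
  calc (∑ d ∈ c.divisors, ((Sset P p i).filter (fun l => orderOf (p : ZMod l) = d)).card) ^ 2
      ≤ c.divisors.card * ∑ d ∈ c.divisors,
        ((Sset P p i).filter (fun l => orderOf (p : ZMod l) = d)).card ^ 2 :=
        sq_sum_le_card_mul_sum_sq
    _ ≤ c.divisors.card * ∑ d ∈ c.divisors, P * L := by
        apply Nat.mul_le_mul_left
        apply Finset.sum_le_sum
        intro d hd
        exact fiber_bound hp hpP hPL (Nat.pos_of_mem_divisors hd)
    _ = c.divisors.card ^ 2 * (P * L) := by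
        rw [Finset.sum_const, smul_eq_mul]
        ring

lemma primes_le {P p i L : ℕ} (hP : 2 ≤ P) (hi : 1 ≤ i) (hiP : i < P) (hPL : P ≤ 2 ^ L) :
    P ≤ ((Sset P p i).card + L + 2) * L + 1 := by
  -- the number of the primes below `P`
  have h1 : (Nat.primesLE (P - 1)).card ≤ (Sset P p i).card + 1 + L := by
    have h3 : Nat.primesLE (P - 1) ⊆ (Sset P p i ∪ {p}) ∪ i.primeFactors := by
      intro l hl
      have hl1 := Nat.prime_of_mem_primesLE hl
      have hl2 := Nat.le_of_mem_primesLE hl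
      rw [Finset.mem_union, Finset.mem_union, Finset.mem_singleton, Sset, Finset.mem_filter,
        Finset.mem_range, Nat.mem_primeFactors]
      by_cases h4 : l = p
      · exact Or.inl (Or.inr h4)
      · by_cases h5 : l ∣ i
        · exact Or.inr ⟨hl1, h5, by omega⟩
        · exact Or.inl (Or.inl ⟨by omega, hl1, h4, h5⟩)
    have h4 : i.primeFactors.card ≤ L := by
      have h5 : 2 ^ i.primeFactors.card ≤ ∏ l ∈ i.primeFactors, l := by
        rw [← Finset.prod_const]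
        exact Finset.prod_le_prod' (fun l hl => (Nat.prime_of_mem_primeFactors hl).two_le)
      have h6 : ∏ l ∈ i.primeFactors, l ≤ i := Nat.le_of_dvd hi (Nat.prod_primeFactors_dvd i)
      have h7 : 2 ^ i.primeFactors.card ≤ 2 ^ L := by omega
      exact (Nat.pow_le_pow_iff_right (by norm_num)).1 h7
    calc _ ≤ _ := Finset.card_le_card h3
      _ ≤ (Sset P p i ∪ {p}).card + i.primeFactors.card := Finset.card_union_le _ _
      _ ≤ ((Sset P p i).card + 1) + L := by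
        have := Finset.card_union_le (Sset P p i) {p}
        rw [Finset.card_singleton] at this
        omega
  -- Chebyshev
  have h2 : 2 ^ (P - 1) ≤ 2 ^ (L * ((Nat.primesLE (P - 1)).card + 1)) := by
    have h3 := Chebyshev.two_pow_le_mul_lcmUpto (P - 1)
    have h4 : Nat.lcmUpto (P - 1) ≤ (2 ^ L) ^ (Nat.primesLE (P - 1)).card := by
      rw [Nat.lcmUpto_eq_prod_pow_log, ← Finset.prod_const]
      apply Finset.prod_le_prod'
      intro l hl
      have h5 := Nat.pow_log_le_self l (x := P - 1) (by omega)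
      omega
    calc 2 ^ (P - 1) ≤ (P - 1 + 1) * Nat.lcmUpto (P - 1) := h3
      _ ≤ 2 ^ L * (2 ^ L) ^ (Nat.primesLE (P - 1)).card := Nat.mul_le_mul (by omega) h4
      _ = _ := by rw [← pow_mul, ← pow_add]; ring_nf
  have h3 : P - 1 ≤ L * ((Nat.primesLE (P - 1)).card + 1) :=
    (Nat.pow_le_pow_iff_right (by norm_num)).1 h2
  have h4 : L * ((Nat.primesLE (P - 1)).card + 1) ≤ L * ((Sset P p i).card + L + 2) :=
    Nat.mul_le_mul_left _ (by omega)
  rw [mul_comm _ L]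
  omega

lemma P_le {P L S T c C0 : ℕ} (hP : 2 ≤ P) (hPL : P ≤ 2 ^ L) (hc : c ≤ P ^ 2)
    (hT : T ^ 5 ≤ C0 * c) (hS : S ^ 2 ≤ T ^ 2 * (P * L)) (hPS : P ≤ (S + L + 2) * L + 1) :
    P ≤ 2 ^ 10 * (C0 ^ 2 + 1) * (L + 2) ^ 25 := by
  have hL : 1 ≤ L := by
    rcases Nat.eq_zero_or_pos L with h | h
    · rw [h] at hPL
      omega
    · exact h
  have h1 : S ^ 10 ≤ C0 ^ 2 * (P ^ 9 * L ^ 5) := by
    calc S ^ 10 = (S ^ 2) ^ 5 := by ring
      _ ≤ (T ^ 2 * (P * L)) ^ 5 := Nat.pow_le_pow_left hS 5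
      _ = (T ^ 5) ^ 2 * (P ^ 5 * L ^ 5) := by ring
      _ ≤ (C0 * P ^ 2) ^ 2 * (P ^ 5 * L ^ 5) :=
        Nat.mul_le_mul_right _ (Nat.pow_le_pow_left (le_trans hT (Nat.mul_le_mul_left _ hc)) 2)
      _ = _ := by ring
  have h2 : P ≤ (S + 1) * (L + 2) ^ 2 := by
    have h3 : (S + 1) * (L + 2) ^ 2 = ((S + L + 2) * L + 1) + (S * L ^ 2 + 3 * (S * L) + 4 * S + 2 * L + 3) := by
      ring
    omega
  have h3 : (S + 1) ^ 10 ≤ 2 ^ 10 * ((C0 ^ 2 + 1) * (P ^ 9 * (L + 2) ^ 5)) := by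
    rcases Nat.eq_zero_or_pos S with h0 | h0
    · rw [h0]
      have : 0 < (C0 ^ 2 + 1) * (P ^ 9 * (L + 2) ^ 5) := by positivity
      omega
    · calc (S + 1) ^ 10 ≤ (2 * S) ^ 10 := Nat.pow_le_pow_left (by omega) 10
        _ = 2 ^ 10 * S ^ 10 := by rw [mul_pow]
        _ ≤ 2 ^ 10 * (C0 ^ 2 * (P ^ 9 * L ^ 5)) := Nat.mul_le_mul_left _ h1
        _ ≤ _ := Nat.mul_le_mul_left _ (Nat.mul_le_mul (by omega)
          (Nat.mul_le_mul_left _ (Nat.pow_le_pow_left (by omega) 5)))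
  have h4 : P ^ 10 ≤ (2 ^ 10 * (C0 ^ 2 + 1) * (L + 2) ^ 25) * P ^ 9 := by
    calc P ^ 10 ≤ ((S + 1) * (L + 2) ^ 2) ^ 10 := Nat.pow_le_pow_left h2 10
      _ = (S + 1) ^ 10 * (L + 2) ^ 20 := by ring
      _ ≤ (2 ^ 10 * ((C0 ^ 2 + 1) * (P ^ 9 * (L + 2) ^ 5))) * (L + 2) ^ 20 :=
        Nat.mul_le_mul_right _ h3
      _ = _ := by ring
  have h5 : P * P ^ 9 ≤ (2 ^ 10 * (C0 ^ 2 + 1) * (L + 2) ^ 25) * P ^ 9 := by
    rw [← pow_succ']
    exact h4
  exact Nat.le_of_mul_le_mul_right h5 (pow_pos (by omega) 9)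

lemma step_le (m : ℕ) (hm : 50 ≤ m) : (m + 1) ^ 25 ≤ 2 * m ^ 25 := by
  have hm1 : (0 : ℝ) < (m : ℝ) + 1 := by positivity
  have h1 : (1 : ℝ) + (25 : ℕ) * (-(1 / ((m : ℝ) + 1))) ≤ (1 + -(1 / ((m : ℝ) + 1))) ^ 25 := by
    apply one_add_mul_le_pow
    have : 1 / ((m : ℝ) + 1) ≤ 1 := by
      rw [div_le_one hm1]
      have : (0 : ℝ) ≤ m := Nat.cast_nonneg m
      linarith
    linarith
  have h2 : (1 : ℝ) + -(1 / ((m : ℝ) + 1)) = m / (m + 1) := by
    field_simp
    ring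
  have h3 : (1 : ℝ) / 2 ≤ 1 + (25 : ℕ) * (-(1 / ((m : ℝ) + 1))) := by
    have h4 : 1 / ((m : ℝ) + 1) ≤ 1 / 50 := by
      apply one_div_le_one_div_of_le (by norm_num)
      have : (50 : ℝ) ≤ m := by exact_mod_cast hm
      linarith
    push_cast
    linarith
  rw [h2, div_pow] at h1
  have h4 := h3.trans h1
  rw [div_le_div_iff₀ (by norm_num) (by positivity)] at h4
  have h5 : ((m : ℝ) + 1) ^ 25 ≤ 2 * (m : ℝ) ^ 25 := by linarith
  exact_mod_cast h5

lemma grow (x : ℕ) : 2 ^ 10 * ((263 * 39 ^ 10) ^ 2 + 1) * (x + 405) ^ 25 < 2 ^ (x + 402) := by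
  induction x with
  | zero =>
    show 2 ^ 10 * ((263 * 39 ^ 10) ^ 2 + 1) * 405 ^ 25 < 2 ^ 402
    decide +kernel
  | succ x ih =>
    have h1 := step_le (x + 405) (by omega)
    calc 2 ^ 10 * ((263 * 39 ^ 10) ^ 2 + 1) * (x + 1 + 405) ^ 25
        = 2 ^ 10 * ((263 * 39 ^ 10) ^ 2 + 1) * (x + 405 + 1) ^ 25 := by
          rw [show x + 1 + 405 = x + 405 + 1 by omega]
      _ ≤ 2 ^ 10 * ((263 * 39 ^ 10) ^ 2 + 1) * (2 * (x + 405) ^ 25) := Nat.mul_le_mul_left _ h1
      _ = 2 * (2 ^ 10 * ((263 * 39 ^ 10) ^ 2 + 1) * (x + 405) ^ 25) := by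
          rw [Nat.mul_left_comm]
      _ < 2 * 2 ^ (x + 402) := Nat.mul_lt_mul_of_pos_left ih (by norm_num)
      _ = 2 ^ (x + 1 + 402) := by rw [← pow_succ', show x + 402 + 1 = x + 1 + 402 by omega]

theorem main : S_LARGE := by
  intro P p i c hp hpP hi hiP hc0 hcP hdiv
  by_contra hcon
  rw [not_lt] at hcon
  have hP2 : 2 ≤ P := le_trans hp.two_le hpP
  obtain ⟨L, hL⟩ : ∃ L, L = Nat.log 2 P := ⟨_, rfl⟩
  have hL1 : 2 ^ L ≤ P := by rw [hL]; exact Nat.pow_log_le_self 2 (by omega)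
  have hL2 : P < 2 ^ (L + 1) := by rw [hL]; exact Nat.lt_pow_succ_log_self (by norm_num) P
  have hL402 : 402 ≤ L := by
    have h1 : 2 ^ 402 < 2 ^ (L + 1) := lt_of_le_of_lt hcon hL2
    have h2 := (Nat.pow_lt_pow_iff_right (by norm_num)).1 h1
    omega
  have hS : ∀ l ∈ Sset P p i, l ∣ p ^ c - 1 := by
    intro l hl
    rw [Sset, Finset.mem_filter, Finset.mem_range] at hl
    obtain ⟨hlP, hlp, hne, hli⟩ := hl
    exact hdiv l hlp hlP hne hli
  have h1 := count_bound (L := L + 1) (i := i) hp hpP hL2.le hc0 hS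
  have h2 := primes_le (p := p) (L := L + 1) hP2 hi hiP hL2.le
  have h3 := P_le hP2 hL2.le hcP.le (tau_bound c hc0) h1 h2
  obtain ⟨x, rfl⟩ : ∃ x, L = x + 402 := ⟨L - 402, by omega⟩
  have h4 := grow x
  have h5 : x + 402 + 1 + 2 = x + 405 := by omega
  rw [h5] at h3
  omega

end Pool.Agent.Helper93.VL.LARGE
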