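import Pool.Agent.Helper93.VL.Base

/-!
# Lists of Sophie Germain primes
-/

set_option autoImplicit false

namespace Pool.Agent.Helper93.VL.LIST

/-- trial division by the integers below `174` -/
def tp (n : ℕ) : Bool :=
  Nat.ble 2 n && Nat.ble n 30275 && (List.range 172).all (fun k => Nat.ble n (k + 2) || !(Nat.beq (n % (k + 2)) 0))

lemma tp_sound {n : ℕ} (h : tp n = true) : n.Prime := by
  unfold tp at h
  rw [Bool.and_eq_true, Bool.and_eq_true, List.all_eq_true] at h
  obtain ⟨⟨h1, h2⟩, h3⟩ := h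
  have h1' : 2 ≤ n := Nat.le_of_ble_eq_true h1
  have h2' : n ≤ 30275 := Nat.le_of_ble_eq_true h2
  by_contra hn
  have h4 := Nat.minFac_sq_le_self (by omega : 0 < n) hn
  have h5 : n.minFac.Prime := Nat.minFac_prime (by omega)
  have h6 := h5.two_le
  have h7 : n.minFac < 174 := by
    by_contra hc
    have : 174 ^ 2 ≤ n.minFac ^ 2 := Nat.pow_le_pow_left (by omega) 2
    omega
  have h8 := h3 (n.minFac - 2) (List.mem_range.2 (by omega))
  rw [Nat.sub_add_cancel h6, Bool.or_eq_true] at h8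
  rcases h8 with h8 | h8
  · have h9 : n ≤ n.minFac := Nat.le_of_ble_eq_true h8
    have h10 : n.minFac = n := le_antisymm (Nat.minFac_le (by omega)) h9
    exact hn (h10 ▸ h5)
  · rw [Nat.mod_eq_zero_of_dvd (Nat.minFac_dvd n)] at h8
    simp at h8

/-- the check of a list -/
def chk (B : ℕ) (S : List ℕ) : Bool :=
  S.all (fun s => tp s && tp (2 * s + 1) && !(Nat.beq s 2) && Nat.ble s B)

lemma chk_sound {B : ℕ} {S : List ℕ} (h : chk B S = true) :
    ∀ s ∈ S, s.Prime ∧ s ≠ 2 ∧ (2 * s + 1).Prime ∧ s ≤ B := by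
  intro s hs
  unfold chk at h
  rw [List.all_eq_true] at h
  have h1 := h s hs
  simp only [Bool.and_eq_true] at h1
  obtain ⟨⟨⟨h2, h3⟩, h4⟩, h5⟩ := h1
  refine ⟨tp_sound h2, ?_, tp_sound h3, Nat.le_of_ble_eq_true h5⟩
  rintro rfl
  simp at h4

def S1 : List ℕ := [
  3, 5, 11, 23, 29, 41, 53, 83, 89, 113, 131, 173, 179, 191, 233, 239, 251, 281, 293, 359, 419, 431, 443,
  491]

def S2 : List ℕ := [
  4733, 4793, 4871, 4919, 4943, 5003, 5039, 5051, 5081, 5171, 5231, 5279, 5303, 5333, 5399, 5441, 5501,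
  5639, 5711, 5741, 5849, 5903, 6053, 6101, 6113, 6131, 6173, 6263, 6269, 6323, 6329, 6449, 6491, 6521,
  6551, 6563, 6581, 6761, 6899, 6983, 7043, 7079, 7103, 7121, 7151, 7193, 7211, 7349, 7433, 7541, 7643,
  7649, 7691, 7823, 7841, 7883, 7901, 8069, 8093, 8111, 8243, 8273, 8513, 8663, 8693, 8741, 8951, 8969,
  9029, 9059, 9221, 9293, 9371, 9419, 9473, 9479, 9539, 9629, 9689, 9791, 10061, 10091, 10163, 10253,
  10271, 10313, 10331, 10529, 10589, 10613, 10691, 10709, 10733, 10781, 10799, 10883, 11171, 11321, 11369,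
  11393, 11471, 11519, 11549, 11579, 11699, 11783, 11801, 11813, 11831, 11909, 11939, 12011, 12041, 12101,
  12119, 12203, 12263, 12329, 12653, 12671, 12791, 12821, 12899, 12923, 12959, 13001, 13049, 13229, 13313,
  13451, 13463, 13553, 13619, 13649, 13763, 13883, 13901, 13913, 14009, 14081, 14153, 14159, 14249, 14303,
  14321, 14489, 14561, 14621, 14669, 14699, 14741, 14783, 14831, 14879, 14939]

theorem main : S_LIST := by
  refine ⟨⟨S1, by decide +kernel, ?_, by decide +kernel⟩, ⟨S2, by decide +kernel, ?_, by decide +kernel⟩⟩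
  · exact chk_sound (B := 491) (by decide +kernel)
  · exact chk_sound (B := 14999) (by decide +kernel)

end Pool.Agent.Helper93.VL.LIST
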