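import Pool.Agent.Helper93.VL.Base

/-!
# MED: safe primes (co-author: helper17)
-/

set_option autoImplicit false

namespace Pool.Agent.Helper93.VL.MED

theorem main : S_MED := by
  intro P p i c B S hp hpP hi hiP hc hB hdvd hZ hnd hS
  classical
  have hprod : S.prod = ∏ s ∈ S.toFinset, s := by
    rw [List.prod_toFinset _ hnd]
    simp
  have hT : ∀ s ∈ S.toFinset, s.Prime ∧ s ≠ 2 ∧ (2 * s + 1).Prime ∧ s ≤ B ∧ 2 * s + 1 < P :=
    fun s hs => hS s (List.mem_toFinset.1 hs)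
  generalize S.toFinset = T at hprod hT
  have hp2 := hp.two_le
  have hpos : 0 < i * p * (p ^ 2 - 1) := by
    have : 2 ^ 2 ≤ p ^ 2 := Nat.pow_le_pow_left hp2 2
    have h3 : 0 < p ^ 2 - 1 := by omega
    have h4 : 0 < i * p := Nat.mul_pos hi (by omega)
    exact Nat.mul_pos h4 h3
  rw [hprod, ← Finset.prod_filter_mul_prod_filter_not T (fun s => 2 * s + 1 ∣ i * p * (p ^ 2 - 1))]
  have hbad : ∏ s ∈ T with 2 * s + 1 ∣ i * p * (p ^ 2 - 1), s ≤ P ^ 4 := by
    have h1 : ∏ s ∈ T with 2 * s + 1 ∣ i * p * (p ^ 2 - 1), s ≤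
        ∏ s ∈ T with 2 * s + 1 ∣ i * p * (p ^ 2 - 1), (2 * s + 1) :=
      Finset.prod_le_prod' fun s _ => by omega
    have h2 : ∏ s ∈ T with 2 * s + 1 ∣ i * p * (p ^ 2 - 1), (2 * s + 1) ∣ i * p * (p ^ 2 - 1) := by
      rw [← Finset.prod_image (f := fun l => l) (g := fun s : ℕ => 2 * s + 1) (by
        intro a _ b _ hab
        simp only [] at hab
        omega)]
      apply Finset.prod_primes_dvd
      · intro l hl
        obtain ⟨s, hs, rfl⟩ := Finset.mem_image.1 hl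
        exact (hT s (Finset.mem_filter.1 hs).1).2.2.1.prime
      · intro l hl
        obtain ⟨s, hs, rfl⟩ := Finset.mem_image.1 hl
        exact (Finset.mem_filter.1 hs).2
    have h3 := Nat.le_of_dvd hpos h2
    have h4 : i * p * (p ^ 2 - 1) ≤ P * P * P ^ 2 := by
      apply Nat.mul_le_mul (Nat.mul_le_mul hiP.le hpP)
      exact le_trans (Nat.sub_le _ _) (Nat.pow_le_pow_left hpP 2)
    calc _ ≤ _ := h1
      _ ≤ _ := h3
      _ ≤ _ := h4
      _ = P ^ 4 := by ring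
  have hgood : ∀ s ∈ T.filter (fun s => ¬ 2 * s + 1 ∣ i * p * (p ^ 2 - 1)), s ∣ c := by
    intro s hs
    obtain ⟨hsT, hsn⟩ := Finset.mem_filter.1 hs
    obtain ⟨hsp, hs2, hl, hsB, hlP⟩ := hT s hsT
    have hlp : ¬ 2 * s + 1 ∣ p := fun h => hsn (Dvd.dvd.mul_right (Dvd.dvd.mul_left h _) _)
    have hli : ¬ 2 * s + 1 ∣ i := fun h => hsn (Dvd.dvd.mul_right (Dvd.dvd.mul_right h _) _)
    have hl2 : ¬ 2 * s + 1 ∣ p ^ 2 - 1 := fun h => hsn (Dvd.dvd.mul_left h _)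
    have h1 := hdvd (2 * s + 1) hl hlP (fun h => hlp (h ▸ dvd_rfl)) hli
    haveI : Fact (2 * s + 1).Prime := ⟨hl⟩
    have hone : ∀ m, 2 * s + 1 ∣ p ^ m - 1 ↔ (p : ZMod (2 * s + 1)) ^ m = 1 := by
      intro m
      have h2 : 1 ≤ p ^ m := Nat.one_le_pow _ _ hp.pos
      rw [← Nat.modEq_iff_dvd' h2, ← ZMod.natCast_eq_natCast_iff]
      push_cast
      exact eq_comm
    have hne : (p : ZMod (2 * s + 1)) ≠ 0 := by
      rw [Ne, ZMod.natCast_eq_zero_iff]
      exact hlp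
    have hd1 : orderOf (p : ZMod (2 * s + 1)) ∣ c := orderOf_dvd_of_pow_eq_one ((hone c).1 h1)
    have hd2 : orderOf (p : ZMod (2 * s + 1)) ∣ 2 * s := by
      have := ZMod.pow_card_sub_one_eq_one hne
      rw [show 2 * s + 1 - 1 = 2 * s by omega] at this
      exact orderOf_dvd_of_pow_eq_one this
    have hd3 : ¬ orderOf (p : ZMod (2 * s + 1)) ∣ 2 := fun h =>
      hl2 ((hone 2).2 (orderOf_dvd_iff_pow_eq_one.1 h))
    by_contra hcon
    apply hd3
    have h4 : ¬ s ∣ orderOf (p : ZMod (2 * s + 1)) := fun h => hcon (h.trans hd1)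
    exact ((Nat.Prime.coprime_iff_not_dvd hsp).2 h4).symm.dvd_of_dvd_mul_right hd2
  have hgp : ∏ s ∈ T with ¬ 2 * s + 1 ∣ i * p * (p ^ 2 - 1), s ≤ B * P := by
    rcases (T.filter (fun s => ¬ 2 * s + 1 ∣ i * p * (p ^ 2 - 1))).eq_empty_or_nonempty with h0 | ⟨s, hs⟩
    · rw [h0, Finset.prod_empty]
      exact Nat.mul_pos hB (by omega)
    · have h1 : ∏ s ∈ T with ¬ 2 * s + 1 ∣ i * p * (p ^ 2 - 1), s ∣ c := by
        apply Finset.prod_primes_dvd
        · intro l hl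
          exact (hT l (Finset.mem_filter.1 hl).1).1.prime
        · exact hgood
      have h2 := Nat.le_of_dvd hc h1
      obtain ⟨hsp, hs2, -, hsB, -⟩ := hT s (Finset.mem_filter.1 hs).1
      have h3 := hZ s hsp hs2 (hgood s hs)
      exact le_trans h2 (le_trans h3 (Nat.mul_le_mul hsB hiP.le))
  calc _ ≤ P ^ 4 * (B * P) := Nat.mul_le_mul hbad hgp
    _ = B * P ^ 5 := by ring

end Pool.Agent.Helper93.VL.MED
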