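import Pool.Agent.Helper93.VL.Base

/-!
# PTWO: the case `p = 2` (co-author: helper17)
-/

set_option autoImplicit false

namespace Pool.Agent.Helper93.VL.PTWO

lemma pow_dvd_sub {l a m : ℕ} (h1 : 1 ≤ a) : l ∣ a ^ m - 1 ↔ a ^ m ≡ 1 [MOD l] := by
  rw [← Nat.modEq_iff_dvd' (Nat.one_le_pow _ _ h1)]
  exact Nat.ModEq.comm

lemma four_dvd {c : ℕ} (h : 5 ∣ 2 ^ c - 1) : 4 ∣ c := by
  rw [pow_dvd_sub (by norm_num)] at h
  have h1 : 2 ^ c % 5 = 1 := h
  have h2 : 2 ^ c = (2 ^ 4) ^ (c / 4) * 2 ^ (c % 4) := by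
    rw [← pow_mul, ← pow_add, Nat.div_add_mod]
  rw [h2, Nat.mul_mod, Nat.pow_mod] at h1
  have h3 : c % 4 < 4 := Nat.mod_lt _ (by norm_num)
  apply Nat.dvd_of_mod_eq_zero
  interval_cases c % 4 <;> simp_all

lemma three_dvd {c : ℕ} (h : 7 ∣ 2 ^ c - 1) : 3 ∣ c := by
  rw [pow_dvd_sub (by norm_num)] at h
  have h1 : 2 ^ c % 7 = 1 := h
  have h2 : 2 ^ c = (2 ^ 3) ^ (c / 3) * 2 ^ (c % 3) := by
    rw [← pow_mul, ← pow_add, Nat.div_add_mod]
  rw [h2, Nat.mul_mod, Nat.pow_mod] at h1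
  have h3 : c % 3 < 3 := Nat.mod_lt _ (by norm_num)
  apply Nat.dvd_of_mod_eq_zero
  interval_cases c % 3 <;> simp_all

theorem main : S_PTWO := by
  intro n j i c hsol hj hD
  have hn := hsol.1
  have hH := hsol.2
  have h8 : 8 ≤ 2 ^ j := by
    calc 8 = 2 ^ 3 := by norm_num
      _ ≤ 2 ^ j := Nat.pow_le_pow_right (by norm_num) hj
  have hodd : ∀ m, 1 ≤ m → ¬ 2 ∣ 2 ^ m - 1 := by
    intro m hm h
    have h1 : 2 ∣ 2 ^ m := dvd_pow_self 2 (by omega)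
    have h2 : 1 ≤ 2 ^ m := Nat.one_le_pow _ _ (by norm_num)
    omega
  have h2j : 2 ^ (j - 1) * 2 = 2 ^ j := by
    rw [← pow_succ]
    congr 1
    omega
  have hi : i = 2 ^ (j - 1) := by
    have h1 : 2 ^ (j - 1) ∣ n := hD.pw _ (Nat.prime_two.isPrimePow.pow (by omega)) (by omega)
    rw [hD.eq'] at h1
    have h2 : Nat.Coprime (2 ^ (j - 1)) (2 ^ c - 1) := by
      apply Nat.Coprime.pow_left
      exact (Nat.Prime.coprime_iff_not_dvd Nat.prime_two).2 (hodd c hD.hc)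
    obtain ⟨t, ht⟩ := h2.dvd_of_dvd_mul_right h1
    have hi2 := hD.hi2
    have hi1 := hD.hi
    have hpos : 0 < 2 ^ (j - 1) := pow_pos (by norm_num) _
    have ht1 : t < 2 := by
      by_contra hcon
      have : 2 ^ (j - 1) * 2 ≤ 2 ^ (j - 1) * t := Nat.mul_le_mul_left _ (by omega)
      omega
    have ht0 : t ≠ 0 := by
      rintro rfl
      omega
    have : t = 1 := by omega
    rw [ht, this, mul_one]
  have hlodd : ∀ l, l.Prime → l ≠ 2 → ¬ l ∣ i := by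
    intro l hl hl2 h
    rw [hi] at h
    exact hl2 ((Nat.prime_dvd_prime_iff_eq hl Nat.prime_two).1 (hl.dvd_of_dvd_pow h))
  have h4 : 4 ∣ c := four_dvd (hD.dvd 5 (by norm_num) (by omega) (hlodd 5 (by norm_num) (by norm_num)))
  have h3 : 3 ∣ c := three_dvd (hD.dvd 7 (by norm_num) (by omega) (hlodd 7 (by norm_num) (by norm_num)))
  obtain ⟨w, rfl⟩ := h3
  have hc := hD.hc
  have hw : 2 ∣ w := by omega
  have hw1 : 1 ≤ w := by omega
  obtain ⟨q, hq⟩ : ∃ q, q = 2 ^ w := ⟨_, rfl⟩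
  have hq2 : 2 ≤ q := by
    rw [hq]
    calc 2 = 2 ^ 1 := by norm_num
      _ ≤ 2 ^ w := Nat.pow_le_pow_right (by norm_num) hw1
  have hqeven : 2 ∣ q := by
    rw [hq]
    exact dvd_pow_self 2 (by omega)
  have hq3 : q % 3 = 1 := by
    obtain ⟨v, rfl⟩ := hw
    rw [hq, pow_mul, Nat.pow_mod]
    simp
  obtain ⟨Y, hY⟩ : ∃ Y, Y + q = q ^ 2 + 1 := ⟨q ^ 2 + 1 - q, by
    have : q ≤ q ^ 2 := Nat.le_self_pow (by norm_num) q
    omega⟩
  have hXY : (q + 1) * Y = q ^ 3 + 1 := by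
    have h1 : (q + 1) * Y + (q + 1) * q = (q + 1) * (q ^ 2 + 1) := by rw [← mul_add, hY]
    nlinarith
  have hq3' : q ^ 3 = 2 ^ (3 * w) := by rw [hq, ← pow_mul, mul_comm]
  have hN : n + 2 ^ j = 2 ^ (j - 1) * ((q + 1) * Y) := by
    have h1 := hD.eq
    rw [hXY, hq3', ← hi, mul_add, ← h1, ← h2j, ← hi]
    ring
  have hY1 : 1 < Y := by
    have : q + q ≤ q ^ 2 := by nlinarith
    omega
  obtain ⟨l₁, hl₁, hl₁d⟩ := Nat.exists_prime_and_dvd (n := q + 1) (by omega)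
  obtain ⟨l₂, hl₂, hl₂d⟩ := Nat.exists_prime_and_dvd (n := Y) (by omega)
  have hq4 : q ^ 2 % 2 = 0 := by
    obtain ⟨t, ht⟩ := hqeven
    rw [ht]
    have : (2 * t) ^ 2 = 2 * (2 * t ^ 2) := by ring
    omega
  have hbig : ∀ l, l.Prime → l ∣ (q + 1) * Y → 2 ^ j < l ^ (n + 2 ^ j).factorization l := by
    intro l hl hld
    have hl2 : l ≠ 2 := by
      rintro rfl
      rw [hXY, hq3'] at hld
      have h1 : 2 ∣ 2 ^ (3 * w) := dvd_pow_self 2 (by omega)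
      have := (Nat.dvd_add_right h1).1 hld
      omega
    have hlN : l ∣ n + 2 ^ j := by
      rw [hN]
      exact Dvd.dvd.mul_left hld _
    have hlj : 2 ^ j < l := by
      by_contra hcon
      have hlt : l < 2 ^ j := by
        rcases Nat.lt_or_ge l (2 ^ j) with h | h
        · exact h
        · exfalso
          have hle : l = 2 ^ j := by omega
          apply hl2
          have h5 : 2 ∣ l := by
            rw [hle]
            exact dvd_pow_self 2 (by omega)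
          exact ((Nat.prime_dvd_prime_iff_eq Nat.prime_two hl).1 h5).symm
      have h1 : l ∣ n := hD.pw l hl.isPrimePow hlt
      have h2 : l ∣ 2 ^ j := (Nat.dvd_add_right h1).1 hlN
      exact hl2 ((Nat.prime_dvd_prime_iff_eq hl Nat.prime_two).1 (hl.dvd_of_dvd_pow h2))
    have h6 : 1 ≤ (n + 2 ^ j).factorization l := hl.factorization_pos_of_dvd (by omega) hlN
    calc 2 ^ j < l := hlj
      _ ≤ l ^ (n + 2 ^ j).factorization l := Nat.le_self_pow (by omega) l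
  have hne : l₁ ≠ l₂ := by
    rintro rfl
    have h5 : Y + 3 * q = (q + 1) ^ 2 := by nlinarith
    have h6 : l₁ ∣ 3 * q := (Nat.dvd_add_right hl₂d).1 (h5 ▸ dvd_pow hl₁d (by norm_num))
    rcases (Nat.Prime.dvd_mul hl₁).1 h6 with h7 | h7
    · have h8 : l₁ = 3 := (Nat.prime_dvd_prime_iff_eq hl₁ Nat.prime_three).1 h7
      subst h8
      omega
    · have h8 : l₁ ∣ 1 := (Nat.dvd_add_right h7).1 hl₁d
      exact hl₁.one_lt.ne' (Nat.dvd_one.1 h8)
  apply hne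
  apply two_comp hn (hH (2 ^ j) (by omega)) hl₁ hl₂
  · rw [hN]
    exact Dvd.dvd.mul_left (Dvd.dvd.mul_right hl₁d _) _
  · rw [hN]
    exact Dvd.dvd.mul_left (Dvd.dvd.mul_left hl₂d _) _
  · exact hbig _ hl₁ (Dvd.dvd.mul_right hl₁d _)
  · exact hbig _ hl₂ (Dvd.dvd.mul_left hl₂d _)

end Pool.Agent.Helper93.VL.PTWO
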