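import Pool.Agent.Helper93.VL.Base

/-!
# Zsigmondy's theorem: primes `l` with `l ∣ p ^ m - 1 ↔ n ∣ m`
-/

set_option autoImplicit false

namespace Pool.Agent.Helper93.VL.ZSIG

open Polynomial

/-- `C = Φ_n(q)` as a natural number. -/
theorem cyc_nat {q n : ℕ} (hq : 3 ≤ q) (hn : 3 ≤ n) : ∃ C : ℕ,
    ((cyclotomic n ℤ).eval (q : ℤ)) = (C : ℤ) ∧ (q - 1) ^ n.totient < C := by
  have h1 : (1 : ℝ) < q := by
    have : (3 : ℝ) ≤ q := by exact_mod_cast hq
    linarith
  have h := sub_one_pow_totient_lt_cyclotomic_eval (n := n) (q := (q : ℝ)) (by omega) h1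
  have h2 : ((cyclotomic n ℝ).eval (q : ℝ)) = (((cyclotomic n ℤ).eval (q : ℤ) : ℤ) : ℝ) := by
    have h0 := eval_intCast_map (Int.castRingHom ℝ) (cyclotomic n ℤ) (q : ℤ)
    rw [map_cyclotomic_int] at h0
    simpa using h0
  rw [h2] at h
  have h3 : ((q : ℤ) - 1) ^ n.totient < (cyclotomic n ℤ).eval (q : ℤ) := by
    exact_mod_cast h
  have h4 : (0 : ℤ) < ((q : ℤ) - 1) ^ n.totient := by
    apply pow_pos
    have : (3 : ℤ) ≤ q := by exact_mod_cast hq
    linarith
  refine ⟨((cyclotomic n ℤ).eval (q : ℤ)).toNat, ?_, ?_⟩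
  · rw [Int.toNat_of_nonneg]
    linarith
  · have h5 : (((q - 1 : ℕ) : ℤ)) ^ n.totient < (cyclotomic n ℤ).eval (q : ℤ) := by
      rw [Nat.cast_sub (by omega)]
      exact_mod_cast h3
    have h6 : (((q - 1) ^ n.totient : ℕ) : ℤ) <
        ((((cyclotomic n ℤ).eval (q : ℤ)).toNat : ℕ) : ℤ) := by
      rw [Int.toNat_of_nonneg (by linarith)]
      push_cast
      exact_mod_cast h5
    exact_mod_cast h6

theorem root_of_dvd {q n C s : ℕ} (hC : ((cyclotomic n ℤ).eval (q : ℤ)) = (C : ℤ))
    (hs : s ∣ C) : (cyclotomic n (ZMod s)).IsRoot (q : ZMod s) := by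
  have h1 : ((C : ℤ) : ZMod s) = 0 := by
    have := (ZMod.natCast_eq_zero_iff C s).2 hs
    exact_mod_cast this
  rw [← hC] at h1
  have h0 := eval_intCast_map (Int.castRingHom (ZMod s)) (cyclotomic n ℤ) (q : ℤ)
  rw [map_cyclotomic_int] at h0
  rw [IsRoot.def]
  simp only [Int.cast_natCast, eq_intCast] at h0
  rw [h0]
  exact h1

/-- Zsigmondy's theorem for bases at least `3` and exponents at least `3`. -/
theorem zsig {q n : ℕ} (hq : 3 ≤ q) (hn : 3 ≤ n) : ∃ s, s.Prime ∧ ∀ m, s ∣ q ^ m - 1 ↔ n ∣ m := by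
  obtain ⟨C, hC, hlt⟩ := cyc_nat hq hn
  have hC1 : 1 < C := by
    have : 1 ≤ (q - 1) ^ n.totient := Nat.one_le_pow _ _ (by omega)
    omega
  have hC0 : C ≠ 0 := by omega
  -- `(q ^ d - 1) C ∣ q ^ n - 1`
  have hdiv : ∀ d ∈ n.properDivisors, (q ^ d - 1) * C ∣ q ^ n - 1 := by
    intro d hd
    obtain ⟨R, hR⟩ := X_pow_sub_one_mul_cyclotomic_dvd_X_pow_sub_one_of_dvd ℤ hd
    have h1 := congrArg (eval (q : ℤ)) hR
    simp only [eval_sub, eval_pow, eval_X, eval_one, eval_mul] at h1
    rw [hC] at h1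
    have h2 : ((q ^ d - 1 : ℕ) : ℤ) * (C : ℤ) ∣ ((q ^ n - 1 : ℕ) : ℤ) := by
      rw [Nat.cast_sub (Nat.one_le_pow _ _ (by omega)), Nat.cast_sub (Nat.one_le_pow _ _ (by omega))]
      push_cast
      exact ⟨_, h1⟩
    exact_mod_cast h2
  by_cases hex : ∃ s, s.Prime ∧ s ∣ C ∧ ¬ s ∣ n
  · obtain ⟨s, hs, hsC, hsn⟩ := hex
    have : Fact s.Prime := ⟨hs⟩
    have : NeZero ((n : ℕ) : ZMod s) := by
      refine ⟨?_⟩
      rw [Ne, ZMod.natCast_eq_zero_iff]
      exact hsn
    have hroot := root_of_dvd hC hsC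
    rw [isRoot_cyclotomic_iff] at hroot
    have hord : orderOf (q : ZMod s) = n := hroot.eq_orderOf.symm
    refine ⟨s, hs, fun m => ?_⟩
    rw [← ZMod.natCast_eq_zero_iff, Nat.cast_sub (Nat.one_le_pow _ _ (by omega)), sub_eq_zero,
      Nat.cast_pow, Nat.cast_one, ← orderOf_dvd_iff_pow_eq_one, hord]
  · push Not at hex
    exfalso
    -- structure of `n` at a prime divisor of `C`
    have hstr : ∀ s, s.Prime → s ∣ C → ∃ k m, n = s ^ k * m ∧ 0 < k ∧ ¬ s ∣ m ∧ m ∣ s - 1 ∧
        s ∣ q ^ m - 1 ∧ 0 < m := by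
      intro s hs hsC
      have : Fact s.Prime := ⟨hs⟩
      have hsn := hex s hs hsC
      have hn0 : n ≠ 0 := by omega
      obtain ⟨k, m, hm, hkm⟩ := Nat.exists_eq_pow_mul_and_not_dvd hn0 s hs.ne_one
      have hm0 : 0 < m := by
        rcases Nat.eq_zero_or_pos m with h | h
        · subst h
          simp at hm
        · exact h
      have hk : 0 < k := by
        rcases Nat.eq_zero_or_pos k with h | h
        · subst h
          rw [pow_zero, one_mul] at hkm
          exact absurd (hkm ▸ hsn) hm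
        · exact h
      have : NeZero ((m : ℕ) : ZMod s) := by
        refine ⟨?_⟩
        rw [Ne, ZMod.natCast_eq_zero_iff]
        exact hm
      have hroot := root_of_dvd hC hsC
      rw [hkm, isRoot_cyclotomic_prime_pow_mul_iff_of_charP] at hroot
      refine ⟨k, m, hkm, hk, hm, ?_, ?_, hm0⟩
      · rw [hroot.eq_orderOf]
        apply ZMod.orderOf_dvd_card_sub_one
        intro h0
        have h2 := hroot.pow_eq_one
        rw [h0, zero_pow (by omega)] at h2
        exact zero_ne_one h2
      · rw [← ZMod.natCast_eq_zero_iff, Nat.cast_sub (Nat.one_le_pow _ _ (by omega))]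
        push_cast
        rw [hroot.pow_eq_one, sub_self]
    obtain ⟨s, hs, hsC⟩ := Nat.exists_prime_and_dvd (show C ≠ 1 by omega)
    obtain ⟨k, m, hnkm, hk, hsm, hms, hsq, hm0⟩ := hstr s hs hsC
    have huniq : ∀ {d : ℕ}, d.Prime → d ∣ C → d = s := by
      intro d hd hdC
      by_contra hne
      obtain ⟨k', m', hnkm', hk', hsm', hms', hsq', hm0'⟩ := hstr d hd hdC
      have h1 : d ∣ m := by
        have : d ∣ s ^ k * m := by
          rw [← hnkm]
          exact hex d hd hdC
        rcases (Nat.Prime.dvd_mul hd).1 this with h | h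
        · exact absurd ((Nat.prime_dvd_prime_iff_eq hd hs).1 (hd.dvd_of_dvd_pow h)) hne
        · exact h
      have h2 : s ∣ m' := by
        have : s ∣ d ^ k' * m' := by
          rw [← hnkm']
          exact hex s hs hsC
        rcases (Nat.Prime.dvd_mul hs).1 this with h | h
        · exact absurd ((Nat.prime_dvd_prime_iff_eq hs hd).1 (hs.dvd_of_dvd_pow h)).symm hne
        · exact h
      have h3 : d ≤ s - 1 := (Nat.le_of_dvd hm0 h1).trans
        (Nat.le_of_dvd (by have := hs.two_le; omega) hms)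
      have h4 : s ≤ d - 1 := (Nat.le_of_dvd hm0' h2).trans
        (Nat.le_of_dvd (by have := hd.two_le; omega) hms')
      have := hs.two_le
      omega
    -- `s ^ 2` does not divide `C`
    set d := s ^ (k - 1) * m with hd
    have hnd : n = d * s := by
      rw [hnkm, hd]
      have : s ^ k = s ^ (k - 1) * s := by
        rw [← pow_succ]
        congr 1
        omega
      rw [this]
      ring
    have hd0 : 0 < d := by
      rw [hd]
      exact Nat.mul_pos (pow_pos hs.pos _) hm0
    have hdn : d ∈ n.properDivisors := by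
      rw [Nat.mem_properDivisors]
      refine ⟨⟨s, hnd⟩, ?_⟩
      rw [hnd]
      exact lt_mul_of_one_lt_right hd0 hs.one_lt
    have hqd1 : 1 ≤ q ^ d := Nat.one_le_pow _ _ (by omega)
    have hqd : 1 < q ^ d := Nat.one_lt_pow hd0.ne' (by omega)
    have hqn : 1 < q ^ n := Nat.one_lt_pow (by omega) (by omega)
    have hsd : s ∣ q ^ d - 1 := by
      have h1 : q ^ m - 1 ∣ q ^ d - 1 := by
        rw [hd, mul_comm, pow_mul]
        simpa using Nat.sub_dvd_pow_sub_pow (q ^ m) 1 (s ^ (k - 1))
      exact hsq.trans h1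
    have hCn : (q ^ d - 1) * C ∣ q ^ n - 1 := hdiv d hdn
    have hns2 : ¬ s ^ 2 ∣ C := by
      intro hs2
      have : Fact s.Prime := ⟨hs⟩
      have h1 : (q ^ d - 1) * s ^ 2 ∣ q ^ n - 1 := (Nat.mul_dvd_mul_left _ hs2).trans hCn
      rcases hs.eq_two_or_odd' with h2 | hodd
      · -- `s = 2`
        rw [h2] at hms hnkm hs2 hsm hd hnd hsd
        have hm1 : m = 1 := by
          have := Nat.le_of_dvd (by norm_num) hms
          omega
        rw [hm1, mul_one] at hnkm hd
        have hk2 : 2 ≤ k := by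
          by_contra hk2
          have : k = 1 := by omega
          rw [this] at hnkm
          omega
        have h3 : q ^ n - 1 = (q ^ d - 1) * (q ^ d + 1) := by
          rw [hnd, pow_mul]
          obtain ⟨t, ht⟩ : ∃ t, q ^ d = t + 1 := ⟨q ^ d - 1, by omega⟩
          rw [ht]
          have : (t + 1) ^ 2 - 1 = t * (t + 1 + 1) := by
            have : (t + 1) ^ 2 = t * (t + 1 + 1) + 1 := by ring
            omega
          rw [this, Nat.add_sub_cancel]
        rw [h3] at hCn
        have h4 : C ∣ q ^ d + 1 := Nat.dvd_of_mul_dvd_mul_left (by omega) hCn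
        have h5 : 4 ∣ q ^ d + 1 := by
          have : (4 : ℕ) = 2 ^ 2 := by norm_num
          rw [this]
          exact hs2.trans h4
        have h6 : ∃ t, q ^ d = t ^ 2 := by
          refine ⟨q ^ (2 ^ (k - 2)), ?_⟩
          rw [← pow_mul, hd]
          congr 1
          rw [← pow_succ]
          congr 1
          omega
        obtain ⟨t, ht⟩ := h6
        rw [ht] at h5
        have h7 : t % 4 = 0 ∨ t % 4 = 1 ∨ t % 4 = 2 ∨ t % 4 = 3 := by omega
        have h8 : (t ^ 2 + 1) % 4 = 0 := Nat.mod_eq_zero_of_dvd h5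
        rcases h7 with h | h | h | h <;> simp [Nat.pow_mod, Nat.add_mod, h] at h8
      · have hsqd : ¬ s ∣ q ^ d := by
          intro h
          have : s ∣ q ^ d - (q ^ d - 1) := Nat.dvd_sub h hsd
          rw [Nat.sub_sub_self hqd1] at this
          exact hs.one_lt.ne' (Nat.dvd_one.1 this)
        have hlte := padicValNat.pow_sub_pow (p := s) hodd (x := q ^ d) (y := 1) hqd hsd hsqd
          (n := s) hs.ne_zero
        rw [one_pow, ← pow_mul, ← hnd, padicValNat_self] at hlte
        have h2 : padicValNat s ((q ^ d - 1) * s ^ 2) ≤ padicValNat s (q ^ n - 1) :=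
          (padicValNat_dvd_iff_le (by omega)).1 (dvd_trans pow_padicValNat_dvd h1)
        rw [padicValNat.mul (by omega) (pow_ne_zero _ hs.ne_zero), padicValNat.pow,
          padicValNat_self] at h2
        omega
    have hCs : C = s := by
      have h1 := Nat.eq_prime_pow_of_unique_prime_dvd hC0 huniq
      have h2 : C.primeFactorsList.length ≤ 1 := by
        by_contra hcon
        push Not at hcon
        apply hns2
        rw [h1]
        exact pow_dvd_pow _ hcon
      have h3 : C.primeFactorsList.length ≠ 0 := by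
        intro h0
        rw [h0, pow_zero] at h1
        omega
      have h4 : C.primeFactorsList.length = 1 := by omega
      rw [h4, pow_one] at h1
      exact h1
    -- contradiction by size
    have h1 : s - 1 ≤ n.totient := by
      have h2 : s.totient ∣ n.totient := Nat.totient_dvd_of_dvd (hex s hs hsC)
      rw [Nat.totient_prime hs] at h2
      exact Nat.le_of_dvd (Nat.totient_pos.2 (by omega)) h2
    have h2 : 2 ^ (s - 1) ≤ (q - 1) ^ n.totient :=
      (Nat.pow_le_pow_left (by omega) _).trans (Nat.pow_le_pow_right (by omega) h1)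
    have h3 : s - 1 < 2 ^ (s - 1) := Nat.lt_two_pow_self
    omega

theorem main : S_ZSIG := fun _ _ hp hn => zsig hp hn

end Pool.Agent.Helper93.VL.ZSIG
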