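import Pool.Agent.Helper93.VL.Zb
import Pool.Agent.Helper93.VL.Zsig
import Pool.Agent.Helper93.VL.Large
import Pool.Agent.Helper93.VL.Med
import Pool.Agent.Helper93.VL.List
import Pool.Agent.Helper93.VL.Ptwo
import Pool.Agent.Helper93.VL.Fa
import Pool.Agent.Helper93.VL.Fb
import Pool.Agent.Helper93.VL.Fc

/-!
# All solutions of `V_1(n) = 1`: the assembly
-/

set_option autoImplicit false

namespace Pool.Agent.Helper93.VL.ASM

open Pool.Agent.Helper93.VL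

/-- If no odd prime below `P` divides `c`, then the primes `l < P` with `l ∣ p ^ c - 1` divide
`p ^ (2 ^ a) - 1`, where `2 ^ a ≤ P < 2 ^ (a + 1)`. -/
theorem pow_two_case {P p c l : ℕ} (hp : p.Prime) (hP : 2 ≤ P) (hc : 1 ≤ c)
    (hodd : ∀ s, s.Prime → s ≠ 2 → s ∣ c → P ≤ s) (hl : l.Prime) (hlP : l < P) (hlp : l ≠ p)
    (hd : l ∣ p ^ c - 1) : l ∣ p ^ (2 ^ Nat.log 2 P) - 1 := by
  have : Fact l.Prime := ⟨hl⟩
  have cast : ∀ m, l ∣ p ^ m - 1 ↔ (p : ZMod l) ^ m = 1 := by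
    intro m
    rw [← ZMod.natCast_eq_zero_iff, Nat.cast_sub (Nat.one_le_pow _ _ hp.pos)]
    push_cast
    exact sub_eq_zero
  rw [cast] at hd ⊢
  have h1 : orderOf (p : ZMod l) ∣ c := orderOf_dvd_of_pow_eq_one hd
  have hp0 : (p : ZMod l) ≠ 0 := by
    intro h0
    rw [ZMod.natCast_eq_zero_iff] at h0
    exact hlp ((Nat.prime_dvd_prime_iff_eq hl hp).1 h0)
  have h2 : orderOf (p : ZMod l) ∣ l - 1 := ZMod.orderOf_dvd_card_sub_one hp0
  have hl2 := hl.two_le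
  have h3 : orderOf (p : ZMod l) ≤ l - 1 := Nat.le_of_dvd (by omega) h2
  have h0 : orderOf (p : ZMod l) ≠ 0 := by
    intro h
    rw [h, zero_dvd_iff] at h1
    omega
  -- the order is a power of two
  obtain ⟨b, hb⟩ : ∃ b, orderOf (p : ZMod l) = 2 ^ b := by
    refine ⟨_, Nat.eq_prime_pow_of_unique_prime_dvd h0 ?_⟩
    intro s hs hsd
    by_contra hne
    have h4 := hodd s hs hne (hsd.trans h1)
    have h5 := Nat.le_of_dvd (Nat.pos_of_ne_zero h0) hsd
    omega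
  apply orderOf_dvd_iff_pow_eq_one.1
  rw [hb]
  apply pow_dvd_pow
  apply Nat.le_log_of_pow_le (by norm_num)
  rw [← hb]
  omega

theorem main : ∀ n, Sol n → n ∈ sols := by
  intro n hS
  obtain ⟨p, j, i, c, h⟩ := hS.dat
  rcases Nat.lt_or_ge 7 (p ^ j) with h7 | h7
  swap
  · exact FC.main n p j i c hS h h7
  exfalso
  rcases Nat.lt_or_ge p 3 with hp3 | hp3
  · -- `p = 2`
    have hp2 : p = 2 := by
      have := h.hp.two_le
      omega
    subst hp2
    apply PTWO.main n j i c hS ?_ h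
    by_contra hcon
    have : 2 ^ j ≤ 2 ^ 2 := Nat.pow_le_pow_right (by norm_num) (by omega)
    omega
  have hz := ZB.zb_dvd (ZB.main ZSIG.main) hS h hp3
  rcases Nat.lt_or_ge 47 (p ^ j) with h47 | h47
  swap
  · exact FB.main n p j i c hS h hp3 (by omega) h47 hz
  rcases Nat.lt_or_ge 983 (p ^ j) with h983 | h983
  swap
  · exact FA.main n p j i c h hp3 (by omega) h983 hz
  have hj := h.hj
  have hpP : p ≤ p ^ j := Nat.le_self_pow (by omega) p
  have hdv : ∀ l, l.Prime → l < p ^ j → l ≠ p → ¬ l ∣ i → l ∣ p ^ c - 1 :=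
    fun l hl hlP _ hli => h.dvd l hl hlP hli
  obtain ⟨⟨S₁, n₁, a₁, b₁⟩, S₂, n₂, a₂, b₂⟩ := LIST.main
  rcases Nat.lt_or_ge 30000 (p ^ j) with h3 | h3
  swap
  · have h1 := MED.main (p ^ j) p i c 491 S₁ h.hp hpP h.hi h.hi2 h.hc (by norm_num) hdv hz n₁
      (fun s hs => by
        obtain ⟨x1, x2, x3, x4⟩ := a₁ s hs
        exact ⟨x1, x2, x3, x4, by omega⟩)
    have h2 : 491 * (p ^ j) ^ 5 ≤ 491 * 30000 ^ 5 := Nat.mul_le_mul_left _ (Nat.pow_le_pow_left h3 5)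
    omega
  rcases Nat.lt_or_ge (p ^ j) (2 ^ 402) with h4 | h4
  · have h1 := MED.main (p ^ j) p i c 14999 S₂ h.hp hpP h.hi h.hi2 h.hc (by norm_num) hdv hz n₂
      (fun s hs => by
        obtain ⟨x1, x2, x3, x4⟩ := a₂ s hs
        exact ⟨x1, x2, x3, x4, by omega⟩)
    have h2 : 14999 * (p ^ j) ^ 5 ≤ 14999 * (2 ^ 402) ^ 5 :=
      Nat.mul_le_mul_left _ (Nat.pow_le_pow_left h4.le 5)
    exact absurd (h1.trans h2) (not_le.2 b₂)
  · refine absurd ?_ (not_lt.2 h4)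
    by_cases hex : ∃ s, s.Prime ∧ s ≠ 2 ∧ s ∣ c ∧ s < p ^ j
    · obtain ⟨s, hs, hs2, hsc, hsP⟩ := hex
      refine LARGE.main (p ^ j) p i c h.hp hpP h.hi h.hi2 (by have := h.hc; omega) ?_ hdv
      calc c ≤ s * i := hz s hs hs2 hsc
        _ < p ^ j * p ^ j := Nat.mul_lt_mul'' hsP h.hi2
        _ = (p ^ j) ^ 2 := by ring
    · push Not at hex
      refine LARGE.main (p ^ j) p i (2 ^ Nat.log 2 (p ^ j)) h.hp hpP h.hi h.hi2 (by positivity) ?_ ?_
      · have h1 : 2 ^ Nat.log 2 (p ^ j) ≤ p ^ j := Nat.pow_log_le_self 2 (by omega)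
        calc 2 ^ Nat.log 2 (p ^ j) ≤ p ^ j := h1
          _ < (p ^ j) ^ 2 := by
            rw [pow_two]
            exact lt_mul_of_one_lt_left (by omega) (by omega)
      · intro l hl hlP hlp hli
        exact pow_two_case h.hp (by omega) h.hc (fun s hs hs2 hsc => hex s hs hs2 hsc) hl hlP hlp
          (hdv l hl hlP hlp hli)

end Pool.Agent.Helper93.VL.ASM
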