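import Pool.Agent.Helper93.VL.Base

/-!
# SOL: the fourteen numbers are solutions (helper23 for helper93)
-/

set_option autoImplicit false

namespace Pool.Agent.Helper93.VL.SOL

open Pool.Agent.Helper93.VL

/-- a necessary condition for primality -/
def isP (p : ℕ) : Bool := [2, 3, 5, 7].all fun d => p % d != 0 || p == d

/-- the exact power of `p` in `m` is larger than `k` -/
def big (m k p : ℕ) : Bool := (List.range 8).any fun e => m % p ^ e == 0 && (m % p ^ (e + 1) != 0 && decide (k < p ^ e))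

/-- the bound for the number of the large components -/
def cnt (m k : ℕ) : ℕ := ((Finset.range 89).filter fun p => isP p && big m k p).card

theorem cnt_all : ∀ n ∈ sols, ∀ k ∈ Finset.Icc 1 7, cnt (n + k) k ≤ 1 := by
  decide +kernel

theorem isP_of {p : ℕ} (hp : p.Prime) : isP p = true := by
  unfold isP
  rw [List.all_eq_true]
  intro d hd
  by_cases h : p % d = 0
  · have h1 : d ∣ p := Nat.dvd_of_mod_eq_zero h
    have h2 : d ≠ 1 := by
      rintro rfl
      simp at hd
    have h3 := (Nat.dvd_prime hp).1 h1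
    have h4 : d = p := h3.resolve_left h2
    simp [h4]
  · simp [h]

/-- the counted primes have large components -/
theorem large {n k p : ℕ} (hp : p.Prime)
    (h : ∀ j, j < k → ¬ p ^ ((n + k).factorization p) ∣ n + j) : k < p ^ (n + k).factorization p := by
  by_contra hc
  rw [not_lt] at hc
  have hpos : 0 < p ^ (n + k).factorization p := pow_pos hp.pos _
  refine h (k - p ^ (n + k).factorization p) (by omega) ?_
  have h1 : p ^ (n + k).factorization p ∣ n + k := Nat.ordProj_dvd _ _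
  have h2 : n + k = (n + (k - p ^ (n + k).factorization p)) + p ^ (n + k).factorization p := by omega
  exact (Nat.dvd_add_left (dvd_refl _)).1 (h2 ▸ h1)

theorem V_small {n k : ℕ} (hn : 1 ≤ n) (hnk : n + k ≤ 88) : V n k ≤ cnt (n + k) k := by
  classical
  unfold V cnt
  refine Finset.card_le_card fun p hp => ?_
  rw [Finset.mem_filter] at hp ⊢
  obtain ⟨hpf, hj⟩ := hp
  have hpp := Nat.prime_of_mem_primeFactors hpf
  have hpd := Nat.dvd_of_mem_primeFactors hpf
  have hle := Nat.le_of_dvd (by omega) hpd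
  have hl := large hpp hj
  have hm0 : n + k ≠ 0 := by omega
  refine ⟨Finset.mem_range.2 (by omega), ?_⟩
  rw [Bool.and_eq_true]
  refine ⟨isP_of hpp, ?_⟩
  unfold big
  rw [List.any_eq_true]
  obtain ⟨e, he⟩ : ∃ e, e = (n + k).factorization p := ⟨_, rfl⟩
  have h1 : p ^ e ∣ n + k := by rw [he]; exact Nat.ordProj_dvd _ _
  have h2 : ¬ p ^ (e + 1) ∣ n + k := by
    rw [he]
    exact Nat.pow_succ_factorization_not_dvd hm0 hpp
  have h3 : e < 8 := by
    by_contra hc
    have h4 : 2 ^ 8 ≤ p ^ e := (Nat.pow_le_pow_left hpp.two_le 8).trans (Nat.pow_le_pow_right hpp.pos (by omega))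
    have h5 := Nat.le_of_dvd (by omega) h1
    omega
  refine ⟨e, List.mem_range.2 h3, ?_⟩
  rw [← he] at hl
  have h6 : (n + k) % p ^ e = 0 := Nat.mod_eq_zero_of_dvd h1
  have h7 : (n + k) % p ^ (e + 1) ≠ 0 := fun h => h2 (Nat.dvd_of_mod_eq_zero h)
  simp only [h6, beq_self_eq_true, Bool.true_and, Bool.and_eq_true, bne_iff_ne, ne_eq, decide_eq_true_eq]
  exact ⟨h7, hl⟩

theorem V_large {n k : ℕ} (hn : 1 ≤ n) (h : n + k < (k + 1) * (k + 2)) : V n k ≤ 1 := by
  classical
  by_contra hc
  rw [not_le] at hc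
  unfold V at hc
  obtain ⟨p, hp, q, hq, hpq⟩ := Finset.one_lt_card.1 hc
  rw [Finset.mem_filter] at hp hq
  have hpp := Nat.prime_of_mem_primeFactors hp.1
  have hqp := Nat.prime_of_mem_primeFactors hq.1
  have hl := large hpp hp.2
  have hl' := large hqp hq.2
  have hcop : Nat.Coprime (p ^ (n + k).factorization p) (q ^ (n + k).factorization q) :=
    Nat.Coprime.pow _ _ ((Nat.coprime_primes hpp hqp).2 hpq)
  have hd : p ^ (n + k).factorization p * q ^ (n + k).factorization q ∣ n + k :=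
    Nat.Coprime.mul_dvd_of_dvd_of_dvd hcop (Nat.ordProj_dvd _ _) (Nat.ordProj_dvd _ _)
  have hle := Nat.le_of_dvd (by omega) hd
  obtain ⟨x, hx⟩ : ∃ x, x = p ^ (n + k).factorization p := ⟨_, rfl⟩
  obtain ⟨y, hy⟩ : ∃ y, y = q ^ (n + k).factorization q := ⟨_, rfl⟩
  rw [← hx] at hl hcop hle
  rw [← hy] at hl' hcop hle
  have hne : x ≠ y ∨ x = 1 := by
    by_cases hxy : x = y
    · right
      rw [← hxy] at hcop
      exact (Nat.coprime_self x).1 hcop
    · exact Or.inl hxy
  rcases hne with hne | hne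
  · rcases Nat.lt_or_gt_of_ne hne with h1 | h1
    · have h2 : (k + 1) * (k + 2) ≤ x * y := Nat.mul_le_mul (by omega) (by omega)
      omega
    · have h2 : (k + 2) * (k + 1) ≤ x * y := Nat.mul_le_mul (by omega) (by omega)
      rw [mul_comm (k + 2)] at h2
      omega
  · have hk0 : k = 0 := by omega
    subst hk0
    have h2 : 1 ≤ y := by omega
    -- the component is `1`, but the prime divides
    have h3 := hpp.factorization_pos_of_dvd (by omega : n + 0 ≠ 0) (Nat.dvd_of_mem_primeFactors hp.1)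
    have h4 : 1 < p ^ (n + 0).factorization p := Nat.one_lt_pow (by omega) hpp.one_lt
    omega

theorem V_one_pos {n : ℕ} (hn : 1 ≤ n) : 1 ≤ V n 1 := by
  classical
  unfold V
  rw [Nat.one_le_iff_ne_zero, Finset.card_ne_zero]
  obtain ⟨p, hp, hpd⟩ := Nat.exists_prime_and_dvd (show n + 1 ≠ 1 by omega)
  refine ⟨p, ?_⟩
  rw [Finset.mem_filter]
  refine ⟨Nat.mem_primeFactors.2 ⟨hp, hpd, by omega⟩, fun j hj hd => ?_⟩
  have hj0 : j = 0 := by omega
  subst hj0
  have h3 := hp.factorization_pos_of_dvd (by omega : n + 1 ≠ 0) hpd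
  have h4 : p ∣ n := dvd_trans (dvd_pow_self p h3.ne') (by simpa using hd)
  have h5 : p ∣ 1 := (Nat.dvd_add_right h4).1 hpd
  exact hp.one_lt.ne' (Nat.dvd_one.1 h5)

theorem main : S_SOL := by
  intro n hn
  have hle : n ≤ 80 ∧ 1 ≤ n := by
    simp only [sols, List.mem_cons, List.not_mem_nil, or_false] at hn
    omega
  have hV : ∀ k, 1 ≤ k → V n k ≤ 1 := by
    intro k hk
    by_cases h : k ≤ 7
    · exact (V_small hle.2 (by omega)).trans (cnt_all n hn k (Finset.mem_Icc.2 ⟨hk, h⟩))
    · refine V_large hle.2 ?_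
      nlinarith
  exact ⟨⟨hle.2, hV⟩, 1, le_rfl, le_antisymm (hV 1 le_rfl) (V_one_pos hle.2)⟩

end Pool.Agent.Helper93.VL.SOL
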