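import Pool.Agent.Helper93.VL.Base

/-!
# `c ≤ s i` for the odd prime divisors `s` of `c`
-/

set_option autoImplicit false

namespace Pool.Agent.Helper93.VL.ZB

open Pool.Agent.Helper93.VL

/-- a prime `l` with `l ∣ p ^ m - 1 ↔ 2 w ∣ m` divides `p ^ w + 1` and is larger than `2 w` -/
theorem prim {p w l : ℕ} (hp3 : 3 ≤ p) (hw : 1 ≤ w) (hl : l.Prime)
    (h : ∀ m, l ∣ p ^ m - 1 ↔ 2 * w ∣ m) : l ∣ p ^ w + 1 ∧ 2 * w < l := by
  have h1 : l ∣ p ^ (2 * w) - 1 := (h _).2 dvd_rfl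
  have h2 : ¬ l ∣ p ^ w - 1 := fun h3 => by
    have := Nat.le_of_dvd (by omega) ((h _).1 h3)
    omega
  have h3 : p ^ (2 * w) - 1 = (p ^ w - 1) * (p ^ w + 1) := by
    obtain ⟨x, hx⟩ : ∃ x, p ^ w = x + 1 := ⟨p ^ w - 1, by
      have : 0 < p ^ w := pow_pos (by omega) w
      omega⟩
    rw [mul_comm 2 w, pow_mul, hx]
    have : x + 1 - 1 = x := by omega
    rw [this]
    have h4 : (x + 1) ^ 2 = x * (x + 1 + 1) + 1 := by ring
    rw [h4]
    omega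
  rw [h3] at h1
  have h4 : l ∣ p ^ w + 1 := ((Nat.Prime.dvd_mul hl).1 h1).resolve_left h2
  refine ⟨h4, ?_⟩
  have hlp : ¬ l ∣ p := by
    intro h5
    have h6 : l ∣ p ^ w := dvd_pow h5 (by omega)
    exact hl.one_lt.ne' (Nat.dvd_one.1 ((Nat.dvd_add_right h6).1 h4))
  have : Fact l.Prime := ⟨hl⟩
  have h5 : ((p : ZMod l)) ^ (l - 1) = 1 := by
    apply ZMod.pow_card_sub_one_eq_one
    intro h0
    exact hlp ((ZMod.natCast_eq_zero_iff p l).1 h0)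
  have h6 : l ∣ p ^ (l - 1) - 1 := by
    rw [← ZMod.natCast_eq_zero_iff, Nat.cast_sub (Nat.one_le_pow _ _ (by omega))]
    push_cast
    rw [h5, sub_self]
  have h7 := (h _).1 h6
  have hl2 := hl.two_le
  have := Nat.le_of_dvd (by omega) h7
  omega

theorem main (zs : S_ZSIG) : S_ZB := by
  intro n p i c s w hS hp hp3 hi he hs hs2 hcw
  by_contra hcon
  have hw : i < w := not_le.1 hcon
  have hs3 : 3 ≤ s := by
    have := hs.two_le
    omega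
  have hc : w < c := by
    rw [hcw]
    nlinarith
  obtain ⟨l₂, hl₂, h₂⟩ := zs p (2 * w) hp3 (by omega)
  obtain ⟨l₁, hl₁, h₁⟩ := zs p (2 * c) hp3 (by omega)
  obtain ⟨d₂, g₂⟩ := prim hp3 (by omega) hl₂ h₂
  obtain ⟨d₁, g₁⟩ := prim hp3 (by omega) hl₁ h₁
  have d₂' : l₂ ∣ p ^ c + 1 := by
    have hodd : Odd s := hs.odd_of_ne_two hs2
    have h3 : p ^ w + 1 ∣ (p ^ w) ^ s + 1 ^ s := hodd.nat_add_dvd_pow_add_pow _ _
    rw [one_pow, ← pow_mul, mul_comm w s, ← hcw] at h3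
    exact d₂.trans h3
  have hN : n + 2 * i = i * (p ^ c + 1) := by
    have : i * (p ^ c + 1) = i * p ^ c + i := by ring
    omega
  have hN0 : n + 2 * i ≠ 0 := by omega
  have e₁ : l₁ ∣ n + 2 * i := by rw [hN]; exact d₁.mul_left i
  have e₂ : l₂ ∣ n + 2 * i := by rw [hN]; exact d₂'.mul_left i
  have f : ∀ l : ℕ, l.Prime → l ∣ n + 2 * i → 2 * i < l → 2 * i < l ^ (n + 2 * i).factorization l := by
    intro l hl hd hlt
    exact lt_of_lt_of_le hlt (Nat.le_self_pow (hl.factorization_pos_of_dvd hN0 hd).ne' l)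
  have h := two_comp hS.1 (hS.2 (2 * i) (by omega)) hl₁ hl₂ e₁ e₂ (f _ hl₁ e₁ (by omega))
    (f _ hl₂ e₂ (by omega))
  subst h
  have h5 := (h₁ (2 * w)).1 ((h₂ (2 * w)).2 dvd_rfl)
  have := Nat.le_of_dvd (by omega) h5
  omega

/-- the form used in the modules FA, FB, MED -/
theorem zb_dvd (zb : S_ZB) {n p j i c : ℕ} (hS : Sol n) (h : Dat n p j i c) (hp3 : 3 ≤ p) :
    ∀ s, s.Prime → s ≠ 2 → s ∣ c → c ≤ s * i := by
  intro s hs hs2 hd
  obtain ⟨w, hw⟩ := hd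
  have := zb n p i c s w hS h.hp hp3 h.hi h.eq hs hs2 hw
  rw [hw]
  exact Nat.mul_le_mul_left _ this

end Pool.Agent.Helper93.VL.ZB
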